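import Pool.Agent.Helper34.CAR.KINJ

/-!
# Project CAR: the circle action is strongly approximately inner
-/

open scoped ComplexOrder ZeroAtInfty Topology

namespace Pool.Agent.Helper34.CAR

open Pool.Agent.Helper39.Uct

/-- The circle action is a pointwise limit of inner actions given by continuous unitary
representations `u i` of the circle in the fixed point algebra. -/
def Sai {A : Type} [CStarAlgebra A] (γ : CircleAction A) : Prop :=
  ∃ u : ℕ → Circle → A,
    (∀ i z, star (u i z) * u i z = 1 ∧ u i z * star (u i z) = 1) ∧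
    (∀ i z w, u i (z * w) = u i z * u i w) ∧ (∀ i, Continuous (u i)) ∧
    (∀ i z w, γ.act w (u i z) = u i z) ∧
    ∀ z a, Filter.Tendsto (fun i => u i z * a * star (u i z)) Filter.atTop (𝓝 (γ.act z a))

section

variable {B : Type} [CStarAlgebra B]

/-- The diagonal matrix with scalar entries. -/
noncomputable def dgs {S : Type} [DecidableEq S] (t : S → ℂ) : Mt S B :=
  Mt.of fun x y => if x = y then algebraMap ℂ B (t x) else 0

theorem dgs_apply {S : Type} [DecidableEq S] (t : S → ℂ) (x y : S) :
    (dgs t : Mt S B) x y = if x = y then algebraMap ℂ B (t x) else 0 := rfl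

variable {S : Type} [Fintype S] [DecidableEq S]

theorem dgs_mul (t : S → ℂ) (a : Mt S B) (x y : S) : (dgs t * a : Mt S B) x y = t x • a x y := by
  rw [Mt.mul_apply, Finset.sum_eq_single x]
  · rw [dgs_apply, if_pos rfl, Algebra.smul_def]
  · intro k _ hk
    rw [dgs_apply, if_neg (Ne.symm hk), zero_mul]
  · intro h
    exact absurd (Finset.mem_univ _) h

theorem mul_dgs (t : S → ℂ) (a : Mt S B) (x y : S) : (a * dgs t : Mt S B) x y = t y • a x y := by
  rw [Mt.mul_apply, Finset.sum_eq_single y]
  · rw [dgs_apply, if_pos rfl, Algebra.smul_def, Algebra.commutes]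
  · intro k _ hk
    rw [dgs_apply, if_neg hk, mul_zero]
  · intro h
    exact absurd (Finset.mem_univ _) h

theorem dgs_one : (dgs (fun _ => 1) : Mt S B) = 1 := by
  ext x y
  rw [dgs_apply, Mt.one_apply, map_one]

theorem dgs_mul_dgs (t r : S → ℂ) : (dgs t * dgs r : Mt S B) = dgs fun x => t x * r x := by
  ext x y
  rw [dgs_mul, dgs_apply, dgs_apply]
  split_ifs
  · rw [Algebra.smul_def, ← map_mul]
  · rw [smul_zero]

theorem star_dgs (t : S → ℂ) : star (dgs t : Mt S B) = dgs fun x => star (t x) := by
  ext x y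
  rw [Mt.star_apply, dgs_apply, dgs_apply]
  by_cases h : x = y
  · subst h
    rw [if_pos rfl, if_pos rfl, algebraMap_star_comm]
  · rw [if_neg h, if_neg (Ne.symm h), star_zero]

theorem continuous_dgs {Z : Type} [TopologicalSpace Z] (t : Z → S → ℂ)
    (ht : ∀ x, Continuous fun z => t z x) : Continuous fun z => (dgs (t z) : Mt S B) := by
  have h : (fun z => (dgs (t z) : Mt S B)) = fun z => ∑ x, (t z x) • Mt.single x x (1 : B) := by
    funext z
    ext x y
    rw [Mt.sum_apply, dgs_apply]
    simp only [Mt.smul_apply, Mt.single_apply]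
    by_cases h : x = y
    · subst h
      rw [if_pos rfl, Finset.sum_eq_single x]
      · rw [if_pos ⟨rfl, rfl⟩, Algebra.algebraMap_eq_smul_one]
      · intro k _ hk
        rw [if_neg fun h => hk h.1.symm, smul_zero]
      · intro h
        exact absurd (Finset.mem_univ _) h
    · rw [if_neg h]
      symm
      refine Finset.sum_eq_zero fun k _ => ?_
      rw [if_neg fun h' => h (h'.1.trans h'.2.symm), smul_zero]
  rw [h]
  exact continuous_finsetSum _ fun x _ => (ht x).smul continuous_const

end

theorem circle_star_mul (z : Circle) (n : ℕ) : star ((z : ℂ) ^ n) * (z : ℂ) ^ n = 1 := by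
  rw [star_pow, ← mul_pow]
  have : star (z : ℂ) * (z : ℂ) = 1 := by
    rw [Complex.star_def, mul_comm, Complex.mul_conj, Circle.normSq_coe, Complex.ofReal_one]
  rw [this, one_pow]

theorem sai {B : Type} [CStarAlgebra B] {θ : B →⋆ₐ[ℂ] B} (s : Sys B θ) {L : Type}
    [CStarAlgebra L] (ι : ∀ i, s.A i →⋆ₐ[ℂ] L) (hι : ∀ i a, ι (i + 1) (s.κ i a) = ι i a)
    (hd : Dense (⋃ i, Set.range (ι i))) (γ : CircleAction L) (hγ : IsWeightAction s ι γ) :
    Sai γ := by
  let D : ∀ i, Circle → s.A i := fun i z => dgs fun x => (z : ℂ) ^ s.wt i x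
  have hD1 : ∀ i z, star (D i z) * D i z = 1 := by
    intro i z
    change star (dgs _) * dgs _ = 1
    rw [star_dgs, dgs_mul_dgs, ← dgs_one]
    congr 1
    funext x
    exact circle_star_mul z _
  have hD2 : ∀ i z, D i z * star (D i z) = 1 := by
    intro i z
    change dgs _ * star (dgs _) = 1
    rw [star_dgs, dgs_mul_dgs, ← dgs_one]
    congr 1
    funext x
    rw [mul_comm]
    exact circle_star_mul z _
  have hact : ∀ i z (a : s.A i), γ.act z (ι i a) = ι i (D i z * a * star (D i z)) := by
    intro i z a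
    rw [hγ]
    congr 1
    ext x y
    change _ = (dgs _ * a * star (dgs _) : Mt (s.S i) B) x y
    rw [star_dgs, mul_dgs, dgs_mul, Mt.of_apply, smul_smul, mul_comm]
  -- the later stages
  have hlater : ∀ i k (a : s.A i), i ≤ k → ∃ b : s.A k, ι k b = ι i a := by
    intro i k a hik
    induction k, hik using Nat.le_induction with
    | base => exact ⟨a, rfl⟩
    | succ k _ ih =>
      obtain ⟨b, hb⟩ := ih
      exact ⟨s.κ k b, by rw [hι, hb]⟩
  refine ⟨fun i z => ι i (D i z), ?_, ?_, ?_, ?_, ?_⟩
  · intro i z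
    rw [← map_star, ← map_mul, ← map_mul, hD1, hD2, map_one]
    exact ⟨rfl, rfl⟩
  · intro i z w
    change ι i (D i (z * w)) = ι i (D i z) * ι i (D i w)
    rw [← map_mul]
    congr 1
    change dgs _ = dgs _ * dgs _
    rw [dgs_mul_dgs]
    congr 1
    funext x
    rw [Circle.coe_mul, mul_pow]
  · intro i
    have h1 : Continuous (ι i) := by
      refine AddMonoidHomClass.continuous_of_bound (ι i) 1 fun x => ?_
      rw [one_mul]
      exact NonUnitalStarAlgHom.norm_apply_le (ι i) x
    refine h1.comp ?_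
    refine continuous_dgs (fun z x => ((z : Circle) : ℂ) ^ s.wt i x) fun x => ?_
    exact (continuous_subtype_val).pow _
  · intro i z w
    change γ.act w (ι i (D i z)) = ι i (D i z)
    rw [hact]
    congr 1
    have h : D i w * D i z = D i z * D i w := by
      change dgs _ * dgs _ = dgs _ * dgs _
      rw [dgs_mul_dgs, dgs_mul_dgs]
      congr 1
      funext x
      rw [mul_comm]
    rw [h, mul_assoc, hD2, mul_one]
  · intro z a
    rw [Metric.tendsto_atTop]
    intro ε hε
    obtain ⟨b, hb, hab⟩ := Metric.dense_iff.1 hd a (ε / 3) (by positivity)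
    obtain ⟨i, c, rfl⟩ : ∃ i, ∃ c, ι i c = b := by
      obtain ⟨_, ⟨i, rfl⟩, c, hc⟩ := hab
      exact ⟨i, c, hc⟩
    rw [Metric.mem_ball, dist_eq_norm] at hb
    refine ⟨i, fun k hk => ?_⟩
    obtain ⟨c', hc'⟩ := hlater i k c hk
    have e1 : ι k (D k z) * ι i c * star (ι k (D k z)) = γ.act z (ι i c) := by
      rw [← hc', ← map_star, ← map_mul, ← map_mul, hact]
    have hu : ‖ι k (D k z)‖ ≤ 1 := by
      rcases subsingleton_or_nontrivial L with h | h
      · rw [Subsingleton.elim (ι k (D k z)) 0, norm_zero]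
        exact zero_le_one
      · refine (CStarRing.norm_of_mem_unitary ?_).le
        rw [Unitary.mem_iff, ← map_star, ← map_mul, ← map_mul, hD1, hD2, map_one]
        exact ⟨rfl, rfl⟩
    rw [dist_eq_norm]
    have e2 : ι k (D k z) * a * star (ι k (D k z)) - γ.act z a =
        (ι k (D k z) * (a - ι i c) * star (ι k (D k z))) - γ.act z (a - ι i c) := by
      rw [map_sub, ← e1, mul_sub, sub_mul]
      abel
    rw [e2]
    refine (norm_sub_le _ _).trans_lt ?_
    have h1 : ‖ι k (D k z) * (a - ι i c) * star (ι k (D k z))‖ ≤ ‖a - ι i c‖ := by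
      refine (norm_mul_le _ _).trans ?_
      rw [norm_star]
      have h3 := norm_mul_le (ι k (D k z)) (a - ι i c)
      have h4 := norm_nonneg (ι k (D k z))
      have h5 := norm_nonneg (a - ι i c)
      have h6 := norm_nonneg (ι k (D k z) * (a - ι i c))
      nlinarith
    have h2 : ‖γ.act z (a - ι i c)‖ ≤ ‖a - ι i c‖ := NonUnitalStarAlgHom.norm_apply_le _ _
    have h3 : ‖a - ι i c‖ = ‖ι i c - a‖ := norm_sub_rev _ _
    linarith

end Pool.Agent.Helper34.CAR
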