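import Pool.Agent.Helper34.CAR.Parts
import Pool.Agent.Helper34.CAR.SAI
import Pool.Agent.Helper60.CAR.BLK
import Pool.Agent.Helper61.CAR.ORTH
import Pool.Agent.Helper61.CAR.AssemblyQ

/-!
# Project CAR: the class version of the theorem, complete
-/

open scoped ComplexOrder ZeroAtInfty

namespace Pool.Agent.Helper34.CAR

open Pool.Agent.Helper39.Uct Pool.Agent.Helper61.CAR

theorem t_STEP' : S_STEP := t_STEP Pool.Agent.Helper61.CAR.orth

/-- The class version. -/
theorem main : S_MAIN :=
  main_core Pool.Agent.Helper61.CAR.orth (Pool.Agent.Helper60.CAR.blk t_PIC) s_Q s_E s_NS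

end Pool.Agent.Helper34.CAR
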