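import Pool.Agent.Helper34.CAR.Mt

/-!
# Project CAR, goals A: orthogonal sums, the swap, absorption, the homotopy, the step

Every packet proves one of the Props `S_...` below, as a theorem in
`Pool/Agent/<You>/CAR/<Name>.lean`; the other Props it needs are hypotheses (they are proved in
other packets).  Notation: `[a; v] = qf a v`.
-/

open scoped ComplexOrder ZeroAtInfty

namespace Pool.Agent.Helper34.CAR

open Pool.Agent.Helper39.Uct

/-! ## Algebra in a C*-algebra -/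

/-- ORTH.  Orthogonal sums: `‖∑ a i‖ ≤ max ‖a i‖`.
Proof. `S = ∑ a i`, `b i = (a i)* (a i)`; then `S* S = ∑ b i`, `b i * b j = 0` for `i ≠ j`, so
`(S* S)^N = ∑ (b i)^N` for `N ≥ 1`, and for `N = 2^n` the C*-identity gives
`‖S‖^(2N) = ‖(S* S)^N‖ ≤ ∑ ‖b i‖^N ≤ card * M^(2N)`; take `N`-th roots, `n → ∞` (or: if
`‖S‖ > M` the ratio `(‖S‖/M)^(2N)` is unbounded). -/
def S_ORTH : Prop := ∀ (A : Type) [NonUnitalCStarAlgebra A] (ι : Type) [Fintype ι] (a : ι → A)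
  (M : ℝ), 0 ≤ M → (∀ i, ‖a i‖ ≤ M) →
  (∀ i j, i ≠ j → star (a i) * a j = 0 ∧ a i * star (a j) = 0) → ‖∑ i, a i‖ ≤ M

/-- SWAP.  Conjugation by the self-adjoint unitary `U = V + V* + (1 - e - V V*)`.
Proof. `V e = V` (`(V - V e)* (V - V e) = 0` from `V* V = e`), `P = V V*` is a projection with
`f P = P = P f`, `e V = e f V = 0`, `V V = V e V = 0`, `V* f = V*`.  So `U* = U`, `U U = 1`.  With `Q = f - P`:
`U (h + s + r) U = V* s V + V h V* + Q s Q + V* s Q + Q s V + r` (note `1 - e - P = Q + (1-e-f)`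
and `(1-e-f)` kills `h`, `s` and `V`, `(1-e-f) r (1-e-f) = r`, `Q r = 0`, `P r = 0`, `V* r = 0`).
Subtract `k + s + V (h - k) V* + r` and write `s = P s P + P s Q + Q s P + Q s Q`:
the difference is `(V* s V - k) + V (k - V* s V) V* - P s Q - Q s P + V* s Q + Q s V`.
`V* s V - k = V* (s V - V k)`, `Q s V = Q (s V - V k)`, `V* s Q = (Q (s* V - V k*))*`,
`Q s P = (Q s V) V*`, `P s Q = V (V* s Q)`; each of the six terms has norm `≤ d`. -/
def S_SWAP : Prop := ∀ (R : Type) [CStarAlgebra R] (e f V h k s r : R) (d : ℝ),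
  e * e = e → star e = e → f * f = f → star f = f → e * f = 0 → star V * V = e → f * V = V →
  e * h = h → h * e = h → e * k = k → k * e = k → f * s = s → s * f = s →
  e * r = 0 → r * e = 0 → f * r = 0 → r * f = 0 →
  ‖s * V - V * k‖ ≤ d → ‖star s * V - V * star k‖ ≤ d →
  star (V + star V + (1 - e - V * star V)) = V + star V + (1 - e - V * star V) ∧
  (V + star V + (1 - e - V * star V)) * (V + star V + (1 - e - V * star V)) = 1 ∧
  ‖(V + star V + (1 - e - V * star V)) * (h + s + r) * (V + star V + (1 - e - V * star V)) -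
    (k + s + V * (h - k) * star V + r)‖ ≤ 6 * d

/-! ## Block matrices over the index set `{*} ∪ {0..m-1} × J` -/

/-- The element `g` in the corner `(*, *)`. -/
noncomputable def slot {R : Type} [CStarAlgebra R] {J : Type} (m : ℕ) (g : R) :
    Mt (Option (Fin m × J)) R :=
  Mt.of fun x y => match x, y with
    | none, none => g
    | _, _ => 0

/-- The scalar matrix `a` in the `j`-th copy of `J`. -/
noncomputable def blk {R : Type} [CStarAlgebra R] {J : Type} {m : ℕ}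
    (j : Fin m) (a : CStarMatrix J J ℂ) : Mt (Option (Fin m × J)) R :=
  Mt.of fun x y => match x, y with
    | some (i, p), some (i', q) => if i = j ∧ i' = j then algebraMap ℂ R (a p q) else 0
    | _, _ => 0

/-- The column `u` from `*` to the `j`-th copy of `J`. -/
noncomputable def colm {R : Type} [CStarAlgebra R] {J : Type} {m : ℕ}
    (j : Fin m) (u : J → R) : Mt (Option (Fin m × J)) R :=
  Mt.of fun x y => match x, y with
    | some (i, p), none => if i = j then u p else 0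
    | _, _ => 0

/-- `g` in the corner and `a` in all copies of `J`. -/
noncomputable def amp {R : Type} [CStarAlgebra R] {J : Type} [Fintype J] [DecidableEq J]
    (m : ℕ) (g : R) (a : CStarMatrix J J ℂ) : Mt (Option (Fin m × J)) R :=
  slot m g + ∑ j, blk j a

/-- COLV.  The column `V = colm j (g ∘ v)` is an isometry that almost intertwines.
Proof. `(V* V)` has the single entry `∑ g (v p)* g (v p) = g 1 = 1` at `(*,*)`.
The element `blk j (σ b) * V - V * slot (g b)` is the column `colm j (fun p => g (d p))` with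
`d p = ∑ q, σ b p q • v q - v p * b`.  Its star times itself is `slot (g (∑ (d p)* (d p)))`, and
`∑ (d p)* (d p) = [σ (b* b); v] - [σ (b*); v] b - b* [σ b; v] + b* (∑ v p* v p) b`
`= ([σ (b* b); v] - b* b) - ([σ (b*); v] - b*) b - b* ([σ b; v] - b)`, of norm `≤ δ (1 + 2 ‖b‖)`.
The norm of `slot x` is at most the norm of `x` (`slot` is a *-homomorphism `R → M(R)`). -/
def S_COLV : Prop := ∀ (B R : Type) [CStarAlgebra B] [CStarAlgebra R] (g : B →⋆ₐ[ℂ] R)
  (J : Type) [Fintype J] [DecidableEq J] (σ : B →⋆ₐ[ℂ] CStarMatrix J J ℂ) (v : J → B)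
  (m : ℕ) (j : Fin m) (b : B) (δ : ℝ), ∑ p, star (v p) * v p = 1 →
  ‖qf (σ b) v - b‖ ≤ δ → ‖qf (σ (star b)) v - star b‖ ≤ δ →
  ‖qf (σ (star b * b)) v - star b * b‖ ≤ δ →
  star (colm j fun p => g (v p)) * (colm j fun p => g (v p)) = slot (J := J) m (1 : R) ∧
  ‖blk j (σ b) * (colm j fun p => g (v p)) - (colm j fun p => g (v p)) * slot m (g b)‖ ≤
    √(δ * (1 + 2 * ‖b‖))

/-- ABS.  Absorption without loss.
Proof. Write `e = slot 1`, `f j = ∑ p, (unit at ((j,p),(j,p)))`, `V j = colm j (g (j+1) ∘ v)`,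
`s j = blk j (σ b)`, `D = √(δ (1 + 2 ‖b‖))`.  `V j * (V j)* = (V j) e (V j)*` lies in the corner `f j`.
Let `U j` be the unitary of SWAP for `e, f j, V j` and `w = U (m-1) ⋯ U 0`.  By induction on `n ≤ m`
(with `w n = U (n-1) ⋯ U 0`):
`w n * amp m (g 0 b) (σ b) * (w n)* = slot (g n b) + ∑ j, s j + ∑_{j<n} V j * slot (g j b - g (j+1) b) * (V j)* + E`
with `‖E‖ ≤ 6 n D`: apply SWAP with `h = slot (g n b)`, `k = slot (g (n+1) b)`, `s = s n`,
`r = ` the remaining terms (they live in the copies `j ≠ n`, so `e r = 0 = f r`...); the intertwining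
bounds come from COLV for `b` and `b*` (`star (slot x) = slot (star x)`, `star (blk j a) = blk j (star a)`,
`star (σ b) = σ (star b)`); conjugation by the unitary does not increase `‖E‖`.
Finally `∑_{j<m} V j * slot (..) * (V j)*` has norm `≤ η` by ORTH (`(V i)* (V j) = 0` for `i ≠ j`). -/
def S_ABS : Prop := ∀ (B R : Type) [CStarAlgebra B] [CStarAlgebra R] (m : ℕ)
  (g : ℕ → B →⋆ₐ[ℂ] R) (J : Type) [Fintype J] [DecidableEq J]
  (σ : B →⋆ₐ[ℂ] CStarMatrix J J ℂ) (v : J → B) (F : Finset B) (η δ : ℝ), 0 ≤ η → 0 ≤ δ →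
  ∑ p, star (v p) * v p = 1 → (∀ b ∈ F, ∀ j < m, ‖g j b - g (j + 1) b‖ ≤ η) →
  (∀ b ∈ F, ‖qf (σ b) v - b‖ ≤ δ ∧ ‖qf (σ (star b)) v - star b‖ ≤ δ ∧
    ‖qf (σ (star b * b)) v - star b * b‖ ≤ δ ∧ ‖qf (σ (b * star b)) v - b * star b‖ ≤ δ) →
  ∃ w : Mt (Option (Fin m × J)) R, star w * w = 1 ∧ w * star w = 1 ∧
    ∀ b ∈ F, ‖w * amp m (g 0 b) (σ b) * star w - amp m (g m b) (σ b)‖ ≤
      η + 6 * m * √(δ * (1 + 2 * ‖b‖))

/-! ## The null-homotopy -/

/-- Composition with a continuous proper map `ℝ → ℝ`. -/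
noncomputable def cmp (E : Type) [NonUnitalCStarAlgebra E] (r : ℝ → ℝ) (hr : Continuous r)
    (hc : Filter.Tendsto r (Filter.cocompact ℝ) (Filter.cocompact ℝ)) :
    C₀(ℝ, E) →⋆ₙₐ[ℂ] C₀(ℝ, E) where
  toFun f := ⟨⟨fun t => f (r t), (map_continuous f).comp hr⟩, (zero_at_infty f).comp hc⟩
  map_smul' _ _ := rfl
  map_zero' := rfl
  map_add' _ _ := rfl
  map_mul' _ _ := rfl
  map_star' _ := rfl

/-- The flip `f(t) ↦ f(-t)` of `C₀(ℝ, E)`. -/
noncomputable def flip (E : Type) [NonUnitalCStarAlgebra E] : C₀(ℝ, E) →⋆ₙₐ[ℂ] C₀(ℝ, E) :=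
  cmp E (fun t => -t) continuous_neg (by
    have := (Homeomorph.neg ℝ).isClosedEmbedding.tendsto_cocompact
    simpa using this)

theorem flip_apply (E : Type) [NonUnitalCStarAlgebra E] (f : C₀(ℝ, E)) (t : ℝ) :
    flip E f t = f (-t) := rfl

/-- A finite chain of *-homomorphisms from `h` to `k` with small steps on the finite set `F`. -/
def Chain {X Y : Type} [NonUnitalCStarAlgebra X] [NonUnitalCStarAlgebra Y]
    (F : Finset X) (η : ℝ) (h k : X → Y) : Prop :=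
  ∃ (m : ℕ) (c : ℕ → X →⋆ₙₐ[ℂ] Y), (∀ x, c 0 x = h x) ∧ (∀ x, c m x = k x) ∧
    ∀ x ∈ F, ∀ i < m, ‖c i x - c (i + 1) x‖ ≤ η

/-- `diag(x, y)` as a matrix over the unitization of `X`. -/
noncomputable def dX {X : Type} [NonUnitalCStarAlgebra X] (x y : X) :
    Mt (Fin 2) (Unitization ℂ X) := Mt.dg (x : Unitization ℂ X) (y : Unitization ℂ X)

/-- HOMR (all chains run in `M_2` of the unitization of `C₀(ℝ, E)`, entries in `C₀(ℝ, E)`).  Rotation: from `diag(f(-t), f(t))` to `diag(f(|t|), f(-|t|))`.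
Proof. For an angle `a` let `h a f` be the function with matrix entries (at `t`)
`[[c²x + s²y, cs(x - y)], [cs(x - y), s²x + c²y]]`, `x = f(-t)`, `y = f(t)`, with `c = cos a`, `s = sin a` for
`t ≥ 0` and `c = 1`, `s = 0` for `t ≤ 0`.  At `t = 0` one has `x = y`, both definitions agree, so the entries are in
`C₀(ℝ, E)` (the entries are `x`, `y` combined with bounded functions; `cs(x-y)` and `s²(x - y)` vanish at `0`).  Pointwise it is
`R diag(x, y) R*` with a real rotation matrix `R`, so `h a` is a *-homomorphism; `h 0 = diag(f(-t), f(t))`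
and `h (π/2) f = diag(f(|t|), f(-|t|))`.  `‖h a f - h a' f‖ ≤ C |a - a'| ‖f‖` (sum of the norms of the four entries), so
`c i = h (i π / (2 m))` works for large `m`. -/
def S_HOMR : Prop := ∀ (E : Type) [NonUnitalCStarAlgebra E] (P M : C₀(ℝ, E) →⋆ₙₐ[ℂ] C₀(ℝ, E)),
  (∀ f t, P f t = f |t|) → (∀ f t, M f t = f (-|t|)) →
  ∀ (F : Finset C₀(ℝ, E)) (η : ℝ), 0 < η →
    Chain F η (fun f => dX (flip E f) f) (fun f => dX (P f) (M f))

/-- HOMS.  Shift: from `diag(f(|t|), f(-|t|))` to `0`.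
Proof. `k u f = diag(f(|t| + u), f(-|t| - u))`, `u ≥ 0`.  Choose `U` with `‖f(t)‖ ≤ η/4` for `|t| ≥ U`, `f ∈ F`, and `m` such
that `‖f(t) - f(t')‖ ≤ η/4` for `|t - t'| ≤ U/m` (uniform continuity); chain `k 0, k (U/m), ..., k U, 0`. -/
def S_HOMS : Prop := ∀ (E : Type) [NonUnitalCStarAlgebra E] (P M : C₀(ℝ, E) →⋆ₙₐ[ℂ] C₀(ℝ, E)),
  (∀ f t, P f t = f |t|) → (∀ f t, M f t = f (-|t|)) →
  ∀ (F : Finset C₀(ℝ, E)) (η : ℝ), 0 < η → Chain F η (fun f => dX (P f) (M f)) (fun _ => 0)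

/-- The chain from `diag(θ x, x)` to `0`. -/
def NullChain (X : Type) [NonUnitalCStarAlgebra X] (θ : X →⋆ₙₐ[ℂ] X) : Prop :=
  ∀ (F : Finset X) (η : ℝ), 0 < η → Chain F η (fun x => dX (θ x) x) (fun _ => 0)

/-- HOM.  Concatenate HOMR and HOMS (`P`, `M` are `cmp` for `|t|` and `-|t|`). -/
def S_HOM : Prop := ∀ (E : Type) [NonUnitalCStarAlgebra E], NullChain C₀(ℝ, E) (flip E)

/-! ## The step -/

/-- The data of one step at `(F, ε)`: a unital *-homomorphism `K : B → M_C(B)` with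
`K b = diag(θ b, b, scalars)` and a unitary `w` that makes `K b`, `b ∈ F`, almost scalar. -/
def StepAt {B : Type} [CStarAlgebra B] (θ : B →⋆ₐ[ℂ] B) (F : Finset B) (ε : ℝ)
    (C : Type) [Fintype C] [DecidableEq C] (c0 c1 : C) (K : B →⋆ₐ[ℂ] Mt C B)
    (w : Mt C B) : Prop :=
  c0 ≠ c1 ∧ star w * w = 1 ∧ w * star w = 1 ∧ (∀ b, K b c0 c0 = θ b) ∧ (∀ b, K b c1 c1 = b) ∧
    (∀ b x y, x ≠ y → (x = c0 ∨ x = c1 ∨ y = c0 ∨ y = c1) → K b x y = 0) ∧
    (∀ b x y, x ≠ c0 → x ≠ c1 → y ≠ c0 → y ≠ c1 → ∃ z : ℂ, K b x y = algebraMap ℂ B z) ∧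
    ∀ b ∈ F, ∃ x : C → C → ℂ, ‖K b - star w * Mt.scal x * w‖ < ε

/-- The step property: steps exist for all `(F, ε)` with index sets of size a power of `2`. -/
def StepProp (B : Type) [CStarAlgebra B] (θ : B →⋆ₐ[ℂ] B) : Prop :=
  ∀ (F : Finset B) (ε : ℝ), 0 < ε → ∃ (a : ℕ) (C : Type) (_ : Fintype C) (_ : DecidableEq C)
    (c0 c1 : C) (K : B →⋆ₐ[ℂ] Mt C B) (w : Mt C B),
    Fintype.card C = 2 ^ a ∧ StepAt θ F ε C c0 c1 K w

/-- UNT.  From (N) for `X` to the unitization.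
Proof. `b = λ + x`.  Apply (N) of `X` to the `X`-parts of the elements of `F` (`x = b.snd`), get `J₀, σ₀, v₀`.  `J = Option J₀`,
`σ (λ + x) = λ 1 + (σ₀ x ⊕ 0)` (`Unitization.starLift` of `x ↦ σ₀ x ⊕ 0`), `v (some p) = v₀ p`,
`v none = √(1 - ∑ v₀ p* v₀ p)` (exists: the sum is self-adjoint positive of norm `≤ 1`).  `∑ v p* v p = 1` and
`[σ b; v] = λ ∑ v p* v p + [σ₀ x; v₀] = λ + [σ₀ x; v₀]`. -/
def S_UNT : Prop := ∀ (X : Type) [NonUnitalCStarAlgebra X], PN X →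
  ∀ (F : Finset (Unitization ℂ X)) (ε : ℝ), 0 < ε → ∃ (J : Type) (_ : Fintype J)
    (_ : DecidableEq J) (σ : Unitization ℂ X →⋆ₐ[ℂ] CStarMatrix J J ℂ) (v : J → Unitization ℂ X),
    ∑ p, star (v p) * v p = 1 ∧ ∀ b ∈ F, ‖qf (σ b) v - b‖ < ε

/-- FLAT.  `M_I(M_K(B)) = M_{I × K}(B)`. -/
def S_FLAT : Prop := ∀ (B I K : Type) [CStarAlgebra B] [Fintype I] [DecidableEq I] [Fintype K]
  [DecidableEq K], ∃ Ψ : Mt I (Mt K B) →⋆ₐ[ℂ] Mt (I × K) B, Function.Bijective Ψ ∧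
    ∀ a x y, Ψ a x y = a x.1 y.1 x.2 y.2

/-- PAD.  Padding a step by copies of a character `χ`.
Proof. `K' b = K b ⊕ χ(b) 1` on `C ⊕ P`, `w' = w ⊕ 1`. -/
def S_PAD : Prop := ∀ (B : Type) [CStarAlgebra B] (θ : B →⋆ₐ[ℂ] B) (_ : B →⋆ₐ[ℂ] ℂ)
  (F : Finset B) (ε : ℝ) (C P : Type) [Fintype C] [DecidableEq C] [Fintype P] [DecidableEq P]
  (c0 c1 : C) (K : B →⋆ₐ[ℂ] Mt C B) (w : Mt C B), 0 < ε →
  StepAt θ F ε C c0 c1 K w → ∃ (K' : B →⋆ₐ[ℂ] Mt (C ⊕ P) B)
    (w' : Mt (C ⊕ P) B), StepAt θ F ε (C ⊕ P) (.inl c0) (.inl c1) K' w'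

/-- STEP.  (N) and the null chain give the step property of the unitization.
Proof. `B = Unitization ℂ X`, `R = M_2(B)`.  NullChain for the `X`-parts of `F`, `η = ε/2`, gives `m` and
`c i : X → R`; `g i : B → R`, `g i (λ + x) = λ 1 + c i x` (`Unitization.starLift (c i)`); for `i > m` put `g i = g m`.
`g 0 b = diag(θ b, b)`, `g m b = λ 1`.  Choose `δ > 0` with `6 m √(δ (1 + 2‖b‖)) < ε/4` on `F`; UNT for
`F ∪ F* ∪ {b* b} ∪ {b b*}` and `δ` gives `J, σ, v`; ABS gives `w`.  Transport by FLAT to the index set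
`C = Option (Fin m × J) × Fin 2`: `K b = Ψ (amp m (g 0 b) (σ b))` (a unital *-homomorphism), `c0 = (*, 0)`, `c1 = (*, 1)`;
`Ψ (amp m (g m b) (σ b))` has scalar entries, so it is `Mt.scal x`, and `‖K b - w* x w‖ ≤ ε/2 + ε/4 < ε`.
Pad (PAD with `χ (λ + x) = λ`) to reach `card = 2^a`. -/
def S_STEP : Prop := ∀ (X : Type) [NonUnitalCStarAlgebra X] (θ : X →⋆ₙₐ[ℂ] X), PN X →
  NullChain X θ → StepProp (Unitization ℂ X) (Unitization.starMap θ)

end Pool.Agent.Helper34.CAR
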