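import Pool.Agent.Helper34.CAR.KINJ

/-!
# Project CAR: packet UNI
-/

open scoped ComplexOrder ZeroAtInfty

namespace Pool.Agent.Helper34.CAR

open Pool.Agent.Helper39.Uct

/-- Factorization of a *-homomorphism through an injective one. -/
theorem exists_lift {D H L : Type} [NonUnitalCStarAlgebra D] [NonUnitalCStarAlgebra H]
    [NonUnitalCStarAlgebra L] (j : H →⋆ₙₐ[ℂ] L) (hj : Function.Injective j)
    (g : D →⋆ₙₐ[ℂ] L) (hg : ∀ d, g d ∈ Set.range j) :
    ∃ f : D →⋆ₙₐ[ℂ] H, ∀ d, j (f d) = g d := by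
  choose f hf using hg
  refine ⟨
    { toFun := f
      map_smul' := ?_
      map_zero' := ?_
      map_add' := ?_
      map_mul' := ?_
      map_star' := ?_ }, hf⟩
  · intro c x
    apply hj
    change j (f (c • x)) = j (c • f x)
    rw [hf, map_smul, map_smul, hf]
  · apply hj
    rw [hf, map_zero, map_zero]
  · intro x y
    apply hj
    rw [hf, map_add, map_add, hf, hf]
  · intro x y
    apply hj
    rw [hf, map_mul, map_mul, hf, hf]
  · intro x
    apply hj
    rw [hf, map_star, map_star, hf]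

section

variable {B : Type} [CStarAlgebra B] {θ : B →⋆ₐ[ℂ] B} (s : Sys B θ)

/-- The *-subalgebra of block diagonal elements of stage `i`. -/
noncomputable def blockSub (i : ℕ) : NonUnitalStarSubalgebra ℂ (s.A i) where
  carrier := {a | s.BlockDiag i a}
  add_mem' := by
    intro a b ha hb x y h
    rw [Mt.add_apply, ha x y h, hb x y h, add_zero]
  zero_mem' := by
    intro x y _
    rfl
  mul_mem' := by
    intro a b ha hb
    exact (top B θ s i).2.1 a b ha hb
  smul_mem' := by
    intro c a ha x y h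
    rw [Mt.smul_apply, ha x y h, smul_zero]
  star_mem' := by
    intro a ha
    exact (top B θ s i).2.2.1 a ha

theorem mem_blockSub (i : ℕ) (a : s.A i) : a ∈ blockSub s i ↔ s.BlockDiag i a := Iff.rfl

theorem continuous_entry {I : Type} [Fintype I] [DecidableEq I] (x y : I) :
    Continuous fun a : Mt I B => a x y := by
  rw [Metric.continuous_iff]
  intro b ε hε
  refine ⟨ε, hε, fun a ha => ?_⟩
  rw [dist_eq_norm] at ha ⊢
  rw [← Mt.sub_apply]
  exact (Mt.norm_entry_le _ x y).trans_lt ha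

instance isClosed_blockSub (i : ℕ) : IsClosed (blockSub s i : Set (s.A i)) := by
  have h : (blockSub s i : Set (s.A i)) =
      ⋂ (x : s.S i) (y : s.S i) (_ : s.wt i x ≠ s.wt i y), {a | a x y = 0} := by
    ext a
    simp only [Set.mem_iInter, Set.mem_ofPred_eq]
    rfl
  rw [h]
  refine isClosed_iInter fun x => isClosed_iInter fun y => isClosed_iInter fun _ => ?_
  exact isClosed_eq (continuous_entry x y) continuous_const

end

theorem uni (hBLK : S_BLK) (hSEPL : S_SEPL) : S_UNI := by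
  intro 𝒞 h𝒞 B _ _ θ s L _ ι hι1 hι2 hι3 γ hf1 hf2 H _ j hj hjr hB
  have : TopologicalSpace.SeparableSpace H := (hSEPL B θ s L ι hι3).2 H j hj
  have hlift : ∀ i, ∃ f : blockSub s i →⋆ₙₐ[ℂ] H, ∀ d, j (f d) = ι i (d : s.A i) := by
    intro i
    let g : blockSub s i →⋆ₙₐ[ℂ] L :=
      ((ι i : s.A i →⋆ₙₐ[ℂ] L)).comp (NonUnitalStarSubalgebraClass.subtype (blockSub s i))
    exact exists_lift j hj g fun d => by
      rw [hjr]
      exact hf1 i d d.2
  choose f hf using hlift
  refine h𝒞.union H (fun i => blockSub s i) f ?_ ?_ ?_ ?_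
  · intro i a b hab
    apply Subtype.ext
    apply hι2 i
    rw [← hf, ← hf, hab]
  · rintro i _ ⟨a, rfl⟩
    refine ⟨⟨s.κ i a, (top B θ s i).1 a a.2⟩, ?_⟩
    apply hj
    rw [hf, hf]
    exact hι1 i a
  · rw [Metric.dense_iff]
    intro h r hr
    have h1 : j h ∈ closure {b | ∃ i a, s.BlockDiag i a ∧ b = ι i a} := by
      apply hf2
      rw [← hjr]
      exact ⟨h, rfl⟩
    rw [Metric.mem_closure_iff] at h1
    obtain ⟨_, ⟨i, a, ha, rfl⟩, h2⟩ := h1 r hr
    refine ⟨f i ⟨a, ha⟩, ?_, Set.mem_iUnion.2 ⟨i, ⟨_, rfl⟩⟩⟩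
    rw [Metric.mem_ball, dist_comm, dist_eq_norm, ← NonUnitalStarAlgHom.norm_map j hj, map_sub, hf,
      ← dist_eq_norm]
    exact h2
  · intro i
    refine hBLK 𝒞 h𝒞 B hB (s.S i) (s.wt i) (blockSub s i)
      (NonUnitalStarSubalgebraClass.subtype (blockSub s i)) Subtype.val_injective ?_
    intro a
    constructor
    · rintro ⟨b, rfl⟩
      exact b.2
    · intro h
      exact ⟨⟨a, h⟩, rfl⟩

end Pool.Agent.Helper34.CAR
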