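import Pool.Agent.Helper34.CAR.GoalsA

/-!
# Project CAR, goals B: the limit algebra, the CAR algebra, the circle action, the retraction
-/

open scoped ComplexOrder ZeroAtInfty

namespace Pool.Agent.Helper34.CAR

open Pool.Agent.Helper39.Uct

/-! ## Inductive limits and extension of homomorphisms -/

/-- IL.  Inductive limits of sequences of unital C*-algebras along injective unital
*-homomorphisms.
Proof. If some `A i` is trivial all are, take `L = A 0`.  Otherwise: `P` = bounded sequences (`lp A ∞`), `N` = closed ideal of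
null sequences, `P ⧸ N` is a C*-algebra (quotients of C*-algebras by closed ideals: `Pool.Agent` has this, packet QT of project
Uct), `ι i a` = class of the sequence `0, .., 0, a, κ a, κ κ a, ..`; it is a unital *-homomorphism modulo `N`, isometric because
injective *-homomorphisms are isometric; `L` = closure of the union of the ranges (an increasing union of *-subalgebras).
Alternatively complete the algebraic direct limit. -/
def S_IL : Prop := ∀ (A : ℕ → Type) [∀ i, CStarAlgebra (A i)] (κ : ∀ i, A i →⋆ₐ[ℂ] A (i + 1)),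
  (∀ i, Function.Injective (κ i)) → ∃ (L : Type) (_ : CStarAlgebra L) (ι : ∀ i, A i →⋆ₐ[ℂ] L),
    (∀ i a, ι (i + 1) (κ i a) = ι i a) ∧ (∀ i, Function.Injective (ι i)) ∧
      Dense (⋃ i, Set.range (ι i))

/-- EXT.  A compatible family of *-homomorphisms on an increasing dense union extends.
Proof. On the union `U` (a *-subalgebra) the maps define a *-homomorphism `f` with `‖f (ι i x)‖ = ‖f i x‖ ≤ ‖x‖ = ‖ι i x‖`
(*-homomorphisms are contractive, injective ones isometric); extend by continuity to the closure `H`. -/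
def S_EXT : Prop := ∀ (H M : Type) [NonUnitalCStarAlgebra H] [NonUnitalCStarAlgebra M]
  (A : ℕ → Type) [∀ i, NonUnitalCStarAlgebra (A i)] (ι : ∀ i, A i →⋆ₙₐ[ℂ] H)
  (f : ∀ i, A i →⋆ₙₐ[ℂ] M), (∀ i, Function.Injective (ι i)) →
  (∀ i x, ∃ y, ι (i + 1) y = ι i x ∧ f (i + 1) y = f i x) → Dense (⋃ i, Set.range (ι i)) →
  ∃ F : H →⋆ₙₐ[ℂ] M, ∀ i x, F (ι i x) = f i x

/-! ## Systems -/

/-- A system over `B` with the automorphism `θ`: index sets `S i`, `S 0` one point, `S (i+1) = S i × C i`, and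
unital *-homomorphisms `K i : B → M_{C i}(B)`, `K i b = diag(θ b, b, scalars)`. -/
structure Sys (B : Type) [CStarAlgebra B] (θ : B →⋆ₐ[ℂ] B) where
  S : ℕ → Type
  fS : ∀ i, Fintype (S i)
  dS : ∀ i, DecidableEq (S i)
  C : ℕ → Type
  fC : ∀ i, Fintype (C i)
  dC : ∀ i, DecidableEq (C i)
  s0 : S 0
  uniq : ∀ s : S 0, s = s0
  e : ∀ i, S (i + 1) ≃ S i × C i
  c0 : ∀ i, C i
  c1 : ∀ i, C i
  card : ∀ i, ∃ a, Fintype.card (C i) = 2 ^ a
  K : ∀ i, B →⋆ₐ[ℂ] Mt (C i) B
  w : ∀ i, Mt (C i) B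
  step : ∀ i, StepAt θ ∅ 1 (C i) (c0 i) (c1 i) (K i) (w i)

namespace Sys

variable {B : Type} [CStarAlgebra B] {θ : B →⋆ₐ[ℂ] B} (s : Sys B θ)

instance (i : ℕ) : Fintype (s.S i) := s.fS i
instance (i : ℕ) : DecidableEq (s.S i) := s.dS i
instance (i : ℕ) : Fintype (s.C i) := s.fC i
instance (i : ℕ) : DecidableEq (s.C i) := s.dC i

/-- The stage algebras. -/
abbrev A (i : ℕ) : Type := Mt (s.S i) B

/-- The connecting maps, entrywise `K i`. -/
noncomputable def κ (i : ℕ) : s.A i →⋆ₐ[ℂ] s.A (i + 1) where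
  toFun a := Mt.of fun x y => s.K i (a (s.e i x).1 (s.e i y).1) (s.e i x).2 (s.e i y).2
  map_one' := by
    ext x y
    rw [Mt.of_apply, Mt.one_apply, Mt.one_apply]
    by_cases h1 : (s.e i x).1 = (s.e i y).1
    · rw [if_pos h1, map_one, Mt.one_apply]
      by_cases h2 : (s.e i x).2 = (s.e i y).2
      · rw [if_pos h2, if_pos ((s.e i).injective (Prod.ext h1 h2))]
      · rw [if_neg h2, if_neg fun h => h2 (by rw [h])]
    · rw [if_neg h1, map_zero, Mt.zero_apply, if_neg fun h => h1 (by rw [h])]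
  map_mul' a b := by
    ext x y
    rw [Mt.of_apply, Mt.mul_apply, Mt.mul_apply, map_sum, Mt.sum_apply]
    rw [← (s.e i).symm.sum_comp, Fintype.sum_prod_type]
    refine Finset.sum_congr rfl fun k _ => ?_
    rw [map_mul, Mt.mul_apply]
    refine Finset.sum_congr rfl fun c _ => ?_
    simp only [Mt.of_apply, Equiv.apply_symm_apply]
  map_zero' := by ext x y; rw [Mt.of_apply, Mt.zero_apply, map_zero, Mt.zero_apply, Mt.zero_apply]
  map_add' a b := by
    ext x y
    rw [Mt.of_apply, Mt.add_apply, map_add, Mt.add_apply, Mt.add_apply, Mt.of_apply, Mt.of_apply]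
  commutes' c := by
    ext x y
    rw [Mt.of_apply, Mt.algebraMap_apply, Mt.algebraMap_apply]
    by_cases h1 : (s.e i x).1 = (s.e i y).1
    · rw [if_pos h1, AlgHomClass.commutes, Mt.algebraMap_apply]
      by_cases h2 : (s.e i x).2 = (s.e i y).2
      · rw [if_pos h2, if_pos ((s.e i).injective (Prod.ext h1 h2))]
      · rw [if_neg h2, if_neg fun h => h2 (by rw [h])]
    · rw [if_neg h1, map_zero, Mt.zero_apply, if_neg fun h => h1 (by rw [h])]
  map_star' a := by
    ext x y
    rw [Mt.of_apply, Mt.star_apply, map_star, Mt.star_apply, Mt.star_apply, Mt.of_apply]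

theorem κ_apply (i : ℕ) (a : s.A i) (x y : s.S (i + 1)) :
    s.κ i a x y = s.K i (a (s.e i x).1 (s.e i y).1) (s.e i x).2 (s.e i y).2 := rfl

/-- Iterated connecting maps. -/
noncomputable def push (j : ℕ) : ∀ d : ℕ, s.A j → s.A (j + d)
  | 0, a => a
  | d + 1, a => s.κ (j + d) (push j d a)

/-- The matricial structure that shows that the limit is the CAR algebra: unitaries `v i` of the
stage algebras with `κ (v i)* (x ⊗ 1) κ (v i)` of the form `v (i+1)* (x ⊗ 1) v (i+1)`, and approximation of all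
elements by the full matrix algebras `v i * M(ℂ) * v i`. -/
def Matricial : Prop := ∃ v : ∀ i, s.A i, (∀ i, star (v i) * v i = 1 ∧ v i * star (v i) = 1) ∧
  (∀ i (x : s.S i → s.S i → ℂ), ∃ x' : s.S (i + 1) → s.S (i + 1) → ℂ,
    s.κ i (star (v i) * Mt.scal x * v i) = star (v (i + 1)) * Mt.scal x' * v (i + 1)) ∧
  ∀ (j : ℕ) (a : s.A j) (ε : ℝ), 0 < ε → ∃ (d : ℕ) (x : s.S (j + d) → s.S (j + d) → ℂ),
    ‖s.push j d a - star (v (j + d)) * Mt.scal x * v (j + d)‖ < ε

/-- The weights: the number of special indices `c0`. -/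
noncomputable def wt : ∀ i : ℕ, s.S i → ℕ
  | 0, _ => 0
  | i + 1, x => wt i (s.e i x).1 + if (s.e i x).2 = s.c0 i then 1 else 0

/-- The index with all entries special. -/
noncomputable def top : ∀ i : ℕ, s.S i
  | 0 => s.s0
  | i + 1 => (s.e i).symm (top i, s.c0 i)

/-- `a` is block diagonal for the weights. -/
def BlockDiag (i : ℕ) (a : s.A i) : Prop := ∀ x y, s.wt i x ≠ s.wt i y → a x y = 0

end Sys

/-- Entrywise application of `K : B → M_C(B)` to a matrix over `B`. -/
noncomputable def kapF {S C B : Type} [Fintype C] [DecidableEq C] [CStarAlgebra B]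
    (K : B →⋆ₐ[ℂ] Mt C B) (a : Mt S B) : Mt (S × C) B :=
  Mt.of fun x y => K (a x.1 y.1) x.2 y.2

/-- SYS1.  One step of the recursion.
Proof. Apply `StepProp` to the finite set of all entries of `v * a * star v`, `a ∈ G`, and `ε' = ε / ((card S)² + 1)`; get `C, c0, c1, K, w`.
Put `v' = (1 ⊗ w) * kapF K v`, `(1 ⊗ w) (s,c) (t,d) = if s = t then w c d else 0`.  `kapF K` is a unital *-homomorphism (see `Sys.κ`),
`kapF K (Mt.scal x) = Mt.scal (x ⊗ 1)` (`K` is unital) and this commutes with `1 ⊗ w`, so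
`kapF K (star v * scal x * v) = star (kapF K v) * scal (x ⊗ 1) * kapF K v = star v' * scal (x ⊗ 1) * v'`.  For `a ∈ G`, `a' = v * a * star v`, and scalars `X s t`
with `‖K (a' s t) - star w * scal (X s t) * w‖ < ε'`: `kapF K a' - star (1 ⊗ w) * scal X * (1 ⊗ w) = ∑_{s,t} e_{st} ⊗ (K (a' s t) - star w * scal (X s t) * w)` has norm
`≤ (card S)² ε' < ε` (the norm of `e_{st} ⊗ Y` is `≤ ‖Y‖`: `Y ↦ e_{ss} ⊗ Y` is a *-homomorphism and the C*-identity), and `kapF K a = star (kapF K v) * kapF K a' * kapF K v`. `StepAt θ ∅ 1` follows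
from `StepAt θ F ε'` (only the last clause mentions `F`, `ε'`). -/
def S_SYS1 : Prop := ∀ (B : Type) [CStarAlgebra B] (θ : B →⋆ₐ[ℂ] B), StepProp B θ →
  ∀ (S : Type) [Fintype S] [DecidableEq S] (v : Mt S B), star v * v = 1 → v * star v = 1 →
  ∀ (G : Finset (Mt S B)) (ε : ℝ), 0 < ε → ∃ (a : ℕ) (C : Type) (_ : Fintype C)
    (_ : DecidableEq C) (c0 c1 : C) (K : B →⋆ₐ[ℂ] Mt C B) (w : Mt C B) (v' : Mt (S × C) B),
    Fintype.card C = 2 ^ a ∧ StepAt θ ∅ 1 C c0 c1 K w ∧ star v' * v' = 1 ∧ v' * star v' = 1 ∧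
    (∀ x : S → S → ℂ, ∃ x' : S × C → S × C → ℂ,
      kapF K (star v * Mt.scal x * v) = star v' * Mt.scal x' * v') ∧
    ∀ g ∈ G, ∃ x' : S × C → S × C → ℂ, ‖kapF K g - star v' * Mt.scal x' * v'‖ < ε

/-- SYS.  The recursion (from SYS1).
Proof. State at stage `i`: `(S, instances, v : Mt S B unitary, G : ℕ → ℕ → Mt S B)`; `G j m` (for `j ≤ i`) is the image at stage `i` of the `m`-th
element of a dense sequence of `M_{S_j}(B)` (`Mt S B` is separable because `B` is, by `Mt.norm_le_sum`).  Stage 0: `S = Unit`, `v = 1`, `G 0 m` = dense sequence.  Step: SYS1 for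
`{G j m : j, m ≤ i}` and `1/(i+1)`; next state `S' = S × C`, `v'`, `G' j m = kapF K (G j m)` for `j ≤ i`, `G' (i+1) m` = dense sequence of `Mt S' B`.  Read off `Sys` with
`e i = Equiv.refl _` (`κ = kapF (K i)` definitionally).  `push j d (G_j j m) = G_{j+d} j m`, so for all `d` with `j, m ≤ j + d` the element
`push j (d+1) (G_j j m)` is `1/(j+d+1)`-close to `star v * scal x * v`; density of `G_j j` in `s.A j` and contractivity of `push` give the last clause of `Matricial`. -/
def S_SYS : Prop := ∀ (B : Type) [CStarAlgebra B] [TopologicalSpace.SeparableSpace B]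
  (θ : B →⋆ₐ[ℂ] B), StepProp B θ → ∃ s : Sys B θ, s.Matricial

/-- KINJ.  The connecting maps are injective (`K b c1 c1 = b`). -/
def S_KINJ : Prop := ∀ (B : Type) [CStarAlgebra B] (θ : B →⋆ₐ[ℂ] B) (s : Sys B θ) (i : ℕ),
  Function.Injective (s.κ i)

/-- CARL.  The limit of a matricial system is the CAR algebra.
Proof. `card (S i) = 2^(e i)` (product of the `card (C i)`), `e` is strictly increasing because `c0 ≠ c1` in `C i`.  `j i` = `ι i` composed with
`y ↦ star (v i) * scal (y reindexed) * v i`, a unital injective *-homomorphism (`B` nontrivial).  Ranges increase by the second clause of `Matricial`;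
density: `ι j a = ι (j+d) (push j d a)`. -/
def S_CARL : Prop := ∀ (B : Type) [CStarAlgebra B] [Nontrivial B] (θ : B →⋆ₐ[ℂ] B) (s : Sys B θ),
  s.Matricial → ∀ (L : Type) [CStarAlgebra L] (ι : ∀ i, s.A i →⋆ₐ[ℂ] L),
  (∀ i a, ι (i + 1) (s.κ i a) = ι i a) → (∀ i, Function.Injective (ι i)) →
  Dense (⋃ i, Set.range (ι i)) → IsCAR L

/-- The circle action in coordinates: on the image of stage `i` it is conjugation by the diagonal
unitary with entries `z ^ wt i x`. -/
def IsWeightAction {B : Type} [CStarAlgebra B] {θ : B →⋆ₐ[ℂ] B} (s : Sys B θ) {L : Type}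
    [CStarAlgebra L] (ι : ∀ i, s.A i →⋆ₐ[ℂ] L) (γ : CircleAction L) : Prop :=
  ∀ (z : Circle) (i : ℕ) (a : s.A i), γ.act z (ι i a) =
    ι i (Mt.of fun x y => ((z : ℂ) ^ s.wt i x * star ((z : ℂ) ^ s.wt i y)) • a x y)

/-- ACT.  The circle action on the limit.
Proof. `act i z a x y = (z^(wt x) * conj z^(wt y)) • a x y` (conjugation by the diagonal unitary) is a unital *-homomorphism of `s.A i`, compatible with `κ`:
at `((s,c),(t,d))`: if `c = c0 ≠ d` or `d = c0 ≠ c` the entry of `K` is `0`; if both or neither are `c0` the extra factor is `z * conj z = 1` or `1`.  EXT (applied to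
`A i → L`, `a ↦ ι i (act i z a)`) gives `γ z : L → L`, unital.  `one`, `mul` hold on the dense union.  Continuity: on `ι i a` it is a finite sum of
continuous functions of `z` times matrix units; in general use `‖γ z b‖ ≤ ‖b‖` and density. -/
def S_ACT : Prop := ∀ (B : Type) [CStarAlgebra B] (θ : B →⋆ₐ[ℂ] B) (s : Sys B θ)
  (L : Type) [CStarAlgebra L] (ι : ∀ i, s.A i →⋆ₐ[ℂ] L),
  (∀ i a, ι (i + 1) (s.κ i a) = ι i a) → (∀ i, Function.Injective (ι i)) →
  Dense (⋃ i, Set.range (ι i)) → ∃ γ : CircleAction L, IsWeightAction s ι γ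

/-- FIX.  The fixed points of the circle action.
Proof. Block diagonal elements are fixed (`z^(wt x) * conj z^(wt x) = 1`).  Conversely let `b` be fixed, `ε > 0`, `‖b - ι i a‖ < ε`; with `N > wt i x` for all `x` and
`E a = (1/N) ∑_{k < N} act i (ζ^k) a`, `ζ = exp(2πi/N)`, which is block diagonal because `∑ ζ^(k(p-q)) = 0` for `p ≠ q` in `0..N-1`, one gets
`‖b - ι i (E a)‖ = ‖(1/N) ∑ γ (ζ^k) (b - ι i a)‖ ≤ ε`. -/
def S_FIX : Prop := ∀ (B : Type) [CStarAlgebra B] (θ : B →⋆ₐ[ℂ] B) (s : Sys B θ)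
  (L : Type) [CStarAlgebra L] (ι : ∀ i, s.A i →⋆ₐ[ℂ] L), Dense (⋃ i, Set.range (ι i)) →
  ∀ γ : CircleAction L, IsWeightAction s ι γ →
    (∀ i a, s.BlockDiag i a → ι i a ∈ γ.fix) ∧
    γ.fix ⊆ closure {b | ∃ i a, s.BlockDiag i a ∧ b = ι i a}

/-- FIXN (for the finite cyclic version).  The fixed points of the automorphism `γ ζ`, `ζ = exp(2πi/n)`.
Proof. As FIX with `N = n`: `E a = (1/n) ∑_{k<n} act i (ζ^k) a` has the entries `a x y` with `n ∣ wt x - wt y` and `0` elsewhere. -/
def S_FIXN : Prop := ∀ (B : Type) [CStarAlgebra B] (θ : B →⋆ₐ[ℂ] B) (s : Sys B θ)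
  (L : Type) [CStarAlgebra L] (ι : ∀ i, s.A i →⋆ₐ[ℂ] L), Dense (⋃ i, Set.range (ι i)) →
  ∀ γ : CircleAction L, IsWeightAction s ι γ → ∀ n : ℕ, 0 < n →
    {b | γ.act (Circle.exp (2 * Real.pi / n)) b = b} = closure {b | ∃ (i : ℕ) (a : s.A i),
      (∀ x y, ¬ (s.wt i x ≡ s.wt i y [MOD n]) → a x y = 0) ∧ b = ι i a}

/-- TOP.  The top index and the block diagonal algebras.
Proof. Induction: `wt i x ≤ i`, and `wt i x = i` iff `x = top i`.  If `a` is block diagonal then so is `κ i a` (`K b c0 c = 0` for `c ≠ c0`).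
`κ i a (top, top) = K (a top top) c0 c0 = θ (a top top)`.  For block diagonal `a` one has `a (top i) x = 0` for `x ≠ top i`, so `a ↦ a top top` is multiplicative. -/
def S_TOP : Prop := ∀ (B : Type) [CStarAlgebra B] (θ : B →⋆ₐ[ℂ] B) (s : Sys B θ) (i : ℕ),
  (∀ a, s.BlockDiag i a → s.BlockDiag (i + 1) (s.κ i a)) ∧
  (∀ a b, s.BlockDiag i a → s.BlockDiag i b → s.BlockDiag i (a * b)) ∧
  (∀ a, s.BlockDiag i a → s.BlockDiag i (star a)) ∧
  (∀ a b, s.BlockDiag i a → s.BlockDiag i b →
    (a * b) (s.top i) (s.top i) = a (s.top i) (s.top i) * b (s.top i) (s.top i)) ∧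
  (∀ a, s.κ i a (s.top (i + 1)) (s.top (i + 1)) = θ (a (s.top i) (s.top i)))

/-- RET.  `B` is a retract of the fixed point algebra.
Proof. `H i` = the closed *-subalgebra of block diagonal elements of `s.A i` (TOP), `ι i` restricted to `H i` lands in the fixed points (range of `j`); `f i a = θ^i (a top top)`.
EXT for `H i → H` (`j` injective with range the fixed points, density from `γ.fix ⊆ closure ..`) gives `p`; `i₀ b` = preimage under `j` of `ι 0 (single s0 s0 b)`;
`p (i₀ b) = b`. -/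
def S_RET : Prop := ∀ (B : Type) [CStarAlgebra B] (θ : B →⋆ₐ[ℂ] B), (∀ b, θ (θ b) = b) →
  ∀ (s : Sys B θ) (L : Type) [CStarAlgebra L] (ι : ∀ i, s.A i →⋆ₐ[ℂ] L),
  (∀ i a, ι (i + 1) (s.κ i a) = ι i a) → (∀ i, Function.Injective (ι i)) →
  ∀ (γ : CircleAction L), (∀ i a, s.BlockDiag i a → ι i a ∈ γ.fix) →
    (γ.fix ⊆ closure {b | ∃ i a, s.BlockDiag i a ∧ b = ι i a}) →
  ∀ (H : Type) [NonUnitalCStarAlgebra H] (j : H →⋆ₙₐ[ℂ] L), Function.Injective j →
    Set.range j = γ.fix → ∃ (i₀ : B →⋆ₙₐ[ℂ] H) (p : H →⋆ₙₐ[ℂ] B), ∀ b, p (i₀ b) = b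

/-! ## Classes -/

/-- PIC.  A class with the permanence properties contains finite powers.
Proof. Induction on `n`: `0 → A → (Fin (n+1) → A) → (Fin n → A) → 0`; for `n = 0` the algebra is zero, of type I. -/
def S_PIC : Prop := ∀ (𝒞 : Cls), Perm 𝒞 → ∀ (A : Type) [NonUnitalCStarAlgebra A]
  [TopologicalSpace.SeparableSpace A], 𝒞 A → ∀ n : ℕ, 𝒞 (Fin n → A)

/-- BLK.  The block diagonal algebra is in the class.
Proof. Let `r 1, .., r n` be one index of `I` for each value of `wt`.  `Fin n → B` embeds in `H` by `(b k) ↦ ∑ single (r k) (r k) (b k)` (through `j`); the image is hereditary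
(`e_{rr} a e_{r'r'} = 0` for different weights when `a` is block diagonal) and full (`single x y b = single x r 1 * single r r b * single r y 1` for `wt x = wt y = wt r`,
all three block diagonal).  PIC and `hered`. -/
def S_BLK : Prop := ∀ (𝒞 : Cls), Perm 𝒞 → ∀ (B : Type) [CStarAlgebra B]
  [TopologicalSpace.SeparableSpace B], 𝒞 B → ∀ (I : Type) [Fintype I] [DecidableEq I]
  (wt : I → ℕ) (H : Type) [NonUnitalCStarAlgebra H] (j : H →⋆ₙₐ[ℂ] Mt I B),
  Function.Injective j → (∀ a, a ∈ Set.range j ↔ ∀ x y, wt x ≠ wt y → a x y = 0) → 𝒞 H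

/-- UNI.  `𝒞 B` implies `𝒞 (fixed point algebra)`.
Proof. UnionIn for the subalgebras `H i` of `H` that correspond to `ι i (BlockDiag i)` (BLK for each, `wt = s.wt i`; increasing by TOP); `H` is separable by SEPL.
`H i` can be taken as the closed *-subalgebra of block diagonal elements of `s.A i` (TOP), mapped to `H` through `ι i` and `j`. -/
def S_UNI : Prop := ∀ (𝒞 : Cls), Perm 𝒞 → ∀ (B : Type) [CStarAlgebra B]
  [TopologicalSpace.SeparableSpace B] (θ : B →⋆ₐ[ℂ] B) (s : Sys B θ) (L : Type) [CStarAlgebra L]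
  (ι : ∀ i, s.A i →⋆ₐ[ℂ] L), (∀ i a, ι (i + 1) (s.κ i a) = ι i a) →
  (∀ i, Function.Injective (ι i)) → Dense (⋃ i, Set.range (ι i)) →
  ∀ (γ : CircleAction L), (∀ i a, s.BlockDiag i a → ι i a ∈ γ.fix) →
    (γ.fix ⊆ closure {b | ∃ i a, s.BlockDiag i a ∧ b = ι i a}) →
  ∀ (H : Type) [NonUnitalCStarAlgebra H] (j : H →⋆ₙₐ[ℂ] L), Function.Injective j →
    Set.range j = γ.fix → 𝒞 B → 𝒞 H

/-- UNC.  Unitizations: `0 → X → X~ → ℂ → 0`, and `ℂ` is of type I. -/
def S_UNC : Prop := ∀ (𝒞 : Cls), Perm 𝒞 → ∀ (X : Type) [NonUnitalCStarAlgebra X]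
  [TopologicalSpace.SeparableSpace X], 𝒞 X ↔ 𝒞 (Unitization ℂ X)

/-- SEPL.  Separability of the limit and of its subalgebras.
Proof. `Mt S B` is separable for separable `B` (`Mt.norm_le_sum`), a dense countable union of ranges of separable spaces gives separability of `L`; a space with an
isometry (injective *-homomorphism) into a separable metric space is separable. -/
def S_SEPL : Prop := ∀ (B : Type) [CStarAlgebra B] [TopologicalSpace.SeparableSpace B]
  (θ : B →⋆ₐ[ℂ] B) (s : Sys B θ) (L : Type) [CStarAlgebra L] (ι : ∀ i, s.A i →⋆ₐ[ℂ] L),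
  Dense (⋃ i, Set.range (ι i)) → TopologicalSpace.SeparableSpace L ∧
    ∀ (H : Type) [NonUnitalCStarAlgebra H] (j : H →⋆ₙₐ[ℂ] L), Function.Injective j →
      TopologicalSpace.SeparableSpace H

/-- SEPS.  Separability of the auxiliary algebras.
Proof. `C₀(ℝ, E)` is separable for separable `E` (embeds in the separable space `C(compactification, E)`; or: finite sums of
rational bumps times a dense sequence), the unitization of a separable algebra is separable. -/
def S_SEPS : Prop := ∀ (E : Type) [NonUnitalCStarAlgebra E] [TopologicalSpace.SeparableSpace E],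
  TopologicalSpace.SeparableSpace C₀(ℝ, E) ∧ TopologicalSpace.SeparableSpace (Unitization ℂ E)

/-! ## The theorem -/

/-- For every separable nuclear C*-algebra `D` there is a circle action on the CAR algebra such
that for every class `𝒞` with the permanence properties `Perm`, `D` is in `𝒞` if and only if the
fixed point algebra of the action is. -/
def S_MAIN : Prop := ∀ (D : Type) [NonUnitalCStarAlgebra D] [TopologicalSpace.SeparableSpace D],
  Nuclear D → ∃ (A : Type) (_ : CStarAlgebra A) (γ : CircleAction A), IsCAR A ∧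
    ∀ (H : Type) [NonUnitalCStarAlgebra H] (j : H →⋆ₙₐ[ℂ] A), Function.Injective j →
      Set.range j = γ.fix → ∀ 𝒞 : Cls, Perm 𝒞 → (𝒞 D ↔ 𝒞 H)

end Pool.Agent.Helper34.CAR
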