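import Pool.Agent.Helper34.CAR.Assemble
import Pool.Agent.Helper34.CAR.UNI
import Pool.Agent.Helper61.CAR.SWAP
import Pool.Agent.Helper61.CAR.COLV
import Pool.Agent.Helper98.CAR.ABS
import Pool.Agent.Helper36.CAR.HOMR
import Pool.Agent.Helper49.CAR.HOMS
import Pool.Agent.Helper86.CAR.HOM
import Pool.Agent.Helper44.CAR.UNT
import Pool.Agent.Helper44.CAR.FLAT
import Pool.Agent.Helper52.CAR.PAD
import Pool.Agent.Helper64.CAR.STEP
import Pool.Agent.Helper32.CAR.IL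
import Pool.Agent.Helper52.CAR.EXT
import Pool.Agent.Helper19.CAR.SYS1
import Pool.Agent.Helper32.CAR.SYS
import Pool.Agent.Helper2.CAR.CARL
import Pool.Agent.Helper50.CAR.ACT
import Pool.Agent.Helper56.CAR.FIX
import Pool.Agent.Helper44.CAR.FIXN
import Pool.Agent.Helper10.CAR.RET
import Pool.Agent.Helper52.CAR.PIC
import Pool.Agent.Helper30.CAR.UNC
import Pool.Agent.Helper30.CAR.SEPS
import Pool.Agent.Helper18.CAR.SEPL

/-!
# Project CAR: the proved parts of the core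
-/

open scoped ComplexOrder ZeroAtInfty

namespace Pool.Agent.Helper34.CAR

open Pool.Agent.Helper39.Uct Pool.Agent.Helper61.CAR

theorem t_SWAP : S_SWAP := Pool.Agent.Helper61.CAR.swap
theorem t_COLV : S_COLV := Pool.Agent.Helper61.CAR.colv
theorem t_ABS (hORTH : S_ORTH) : S_ABS := Pool.Agent.Helper98.CAR.abs hORTH t_SWAP t_COLV
theorem t_HOM : S_HOM := Pool.Agent.Helper86.CAR.s_hom Pool.Agent.Helper36.CAR.homr
  Pool.Agent.Helper49.CAR.homs
theorem t_UNT : S_UNT := Pool.Agent.Helper44.CAR.unt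
theorem t_FLAT : S_FLAT := Pool.Agent.Helper44.CAR.flat
theorem t_PAD : S_PAD := Pool.Agent.Helper52.CAR.pad
theorem t_STEP (hORTH : S_ORTH) : S_STEP :=
  Pool.Agent.Helper64.CAR.step (t_ABS hORTH) t_UNT t_FLAT t_PAD
theorem t_IL : S_IL := Pool.Agent.Helper32.CAR.il
theorem t_EXT : S_EXT := Pool.Agent.Helper52.CAR.ext
theorem t_SYS1 : S_SYS1 := Pool.Agent.Helper19.CAR.h_sys1
theorem t_SYS : S_SYS := Pool.Agent.Helper32.CAR.h_sys t_SYS1
theorem t_KINJ : S_KINJ := kinj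
theorem t_CARL : S_CARL := Pool.Agent.Helper2.CAR.carl
theorem t_ACT : S_ACT := Pool.Agent.Helper50.CAR.act t_EXT
theorem t_FIX : S_FIX := Pool.Agent.Helper56.CAR.fix
theorem t_FIXN : S_FIXN := Pool.Agent.Helper44.CAR.fixn
theorem t_RET : S_RET := Pool.Agent.Helper10.CAR.ret t_EXT top
theorem t_PIC : S_PIC := Pool.Agent.Helper52.CAR.pic
theorem t_UNC : S_UNC := Pool.Agent.Helper30.CAR.unc
theorem t_SEPS : S_SEPS := Pool.Agent.Helper30.CAR.seps
theorem t_SEPL : S_SEPL := Pool.Agent.Helper18.CAR.sepl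
theorem t_UNI (hBLK : S_BLK) : S_UNI := uni hBLK t_SEPL

theorem main_core (hORTH : S_ORTH) (hBLK : S_BLK) (hQ : S_Q) (hE : S_E) (hNS : S_NS) : S_MAIN :=
  main_of hQ hE hNS t_HOM (t_STEP hORTH) t_SYS t_SEPS t_IL t_KINJ t_CARL t_ACT t_FIX t_RET
    (t_UNI hBLK) t_UNC t_SEPL

end Pool.Agent.Helper34.CAR
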