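import Pool.Agent.Helper34.CAR.Defs

/-!
# Project CAR: matrices over a unital C*-algebra as a C*-algebra

`Mt I B` is `CStarMatrix I I B` with the C*-algebra structure for the spectral order of `B`.  All
its structure comes from one instance, so there are no diamonds.  Use the lemmas below.
-/

namespace Pool.Agent.Helper34.CAR

/-- Matrices over `B` indexed by `I`, as a C*-algebra. -/
def Mt (I B : Type) : Type := CStarMatrix I I B

namespace Mt

variable {I B R : Type}

instance : CoeFun (Mt I B) fun _ => I → I → B := ⟨fun a => a⟩

/-- The matrix with given entries. -/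
def of (f : I → I → B) : Mt I B := f

@[simp] theorem of_apply (f : I → I → B) (i j : I) : of f i j = f i j := rfl

@[ext] theorem ext {a b : Mt I B} (h : ∀ i j, a i j = b i j) : a = b :=
  funext fun i => funext fun j => h i j

variable [Fintype I] [DecidableEq I] [CStarAlgebra B] [CStarAlgebra R]

noncomputable instance : CStarAlgebra (Mt I B) :=
  letI := CStarAlgebra.spectralOrder B
  haveI := CStarAlgebra.spectralOrderedRing B
  inferInstanceAs (CStarAlgebra (CStarMatrix I I B))

@[simp] theorem zero_apply (i j : I) : (0 : Mt I B) i j = 0 := rfl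

@[simp] theorem add_apply (a b : Mt I B) (i j : I) : (a + b) i j = a i j + b i j := rfl

@[simp] theorem sub_apply (a b : Mt I B) (i j : I) : (a - b) i j = a i j - b i j := rfl

@[simp] theorem neg_apply (a : Mt I B) (i j : I) : (-a) i j = -a i j := rfl

@[simp] theorem smul_apply (c : ℂ) (a : Mt I B) (i j : I) : (c • a) i j = c • a i j := rfl

@[simp] theorem star_apply (a : Mt I B) (i j : I) : (star a) i j = star (a j i) := rfl

@[simp] theorem mul_apply (a b : Mt I B) (i j : I) : (a * b) i j = ∑ k, a i k * b k j := rfl

theorem one_apply (i j : I) : (1 : Mt I B) i j = if i = j then 1 else 0 := rfl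

@[simp] theorem one_apply_eq (i : I) : (1 : Mt I B) i i = 1 := by
  rw [one_apply, if_pos rfl]

theorem one_apply_ne {i j : I} (h : i ≠ j) : (1 : Mt I B) i j = 0 := by
  rw [one_apply, if_neg h]

@[simp] theorem sum_apply {ι : Type*} (s : Finset ι) (a : ι → Mt I B) (i j : I) :
    (∑ k ∈ s, a k) i j = ∑ k ∈ s, a k i j := by
  classical
  induction s using Finset.induction_on with
  | empty => rfl
  | insert x s hx ih => rw [Finset.sum_insert hx, Finset.sum_insert hx, add_apply, ih]

theorem algebraMap_apply (c : ℂ) (i j : I) :
    (algebraMap ℂ (Mt I B) c) i j = if i = j then algebraMap ℂ B c else 0 := by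
  rw [Algebra.algebraMap_eq_smul_one, smul_apply, one_apply]
  split_ifs
  · rw [Algebra.algebraMap_eq_smul_one]
  · rw [smul_zero]

theorem norm_entry_le (a : Mt I B) (i j : I) : ‖a i j‖ ≤ ‖a‖ :=
  letI := CStarAlgebra.spectralOrder B
  haveI := CStarAlgebra.spectralOrderedRing B
  CStarMatrix.norm_entry_le_norm (M := (show CStarMatrix I I B from a))

/-- The matrix unit `e i j` times `x`. -/
noncomputable def single (i j : I) (x : B) : Mt I B :=
  of fun i' j' => if i' = i ∧ j' = j then x else 0

theorem single_apply (i j : I) (x : B) (i' j' : I) :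
    single i j x i' j' = if i' = i ∧ j' = j then x else 0 := rfl

theorem eq_sum_single (a : Mt I B) : a = ∑ i, ∑ j, single i j (a i j) := by
  ext i j
  simp only [sum_apply, single_apply]
  rw [Finset.sum_eq_single i, Finset.sum_eq_single j]
  · simp
  · intro b _ hb
    simp [Ne.symm hb]
  · simp
  · intro b _ hb
    simp [Ne.symm hb]
  · simp

theorem single_mul_single (i j k : I) (x y : B) :
    single i j x * single j k y = single i k (x * y) := by
  ext a b
  rw [mul_apply, Finset.sum_eq_single j]
  · simp only [single_apply]
    by_cases h1 : a = i <;> by_cases h2 : b = k <;> simp [h1, h2]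
  · intro c _ hc
    simp [single_apply, hc]
  · simp

theorem single_mul_single_ne {j j' : I} (h : j ≠ j') (i k : I) (x y : B) :
    single i j x * single j' k y = 0 := by
  ext a b
  rw [mul_apply]
  refine Finset.sum_eq_zero fun c _ => ?_
  simp only [single_apply]
  by_cases h1 : c = j
  · have : ¬ c = j' := fun h2 => h (h1.symm.trans h2)
    simp [this]
  · simp [h1]

theorem star_single (i j : I) (x : B) : star (single i j x) = single j i (star x) := by
  ext a b
  simp only [star_apply, single_apply]
  by_cases h1 : a = j <;> by_cases h2 : b = i <;> simp [h1, h2]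

theorem norm_single_le (i j : I) (x : B) : ‖single i j x‖ ≤ ‖x‖ := by
  have h1 : ‖single i j x‖ * ‖single i j x‖ = ‖single j j (star x * x)‖ := by
    rw [← CStarRing.norm_star_mul_self, star_single, single_mul_single]
  -- `x ↦ single j j x` is a *-homomorphism
  let f : B →⋆ₙₐ[ℂ] Mt I B :=
    { toFun := fun x => single j j x
      map_smul' := fun c x => by
        ext a b
        simp only [smul_apply, single_apply]
        split_ifs <;> simp
      map_zero' := by ext a b; simp [single_apply]
      map_add' := fun x y => by
        ext a b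
        simp only [add_apply, single_apply]
        split_ifs <;> simp
      map_mul' := fun x y => (single_mul_single j j j x y).symm
      map_star' := fun x => (star_single j j x).symm }
  have h2 : ‖single j j (star x * x)‖ ≤ ‖star x * x‖ := NonUnitalStarAlgHom.norm_apply_le f _
  rw [CStarRing.norm_star_mul_self] at h2
  nlinarith [norm_nonneg (single i j x), norm_nonneg x]

theorem norm_le_sum (a : Mt I B) : ‖a‖ ≤ ∑ i, ∑ j, ‖a i j‖ := by
  conv_lhs => rw [eq_sum_single a]
  refine (norm_sum_le _ _).trans (Finset.sum_le_sum fun i _ => ?_)
  exact (norm_sum_le _ _).trans (Finset.sum_le_sum fun j _ => norm_single_le i j _)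

/-- Entrywise application of a unital *-homomorphism. -/
noncomputable def map (f : B →⋆ₐ[ℂ] R) : Mt I B →⋆ₐ[ℂ] Mt I R where
  toFun a := of fun i j => f (a i j)
  map_one' := by
    ext i j
    simp only [of_apply, one_apply]
    split_ifs <;> simp
  map_mul' a b := by ext i j; simp
  map_zero' := by ext i j; simp
  map_add' a b := by ext i j; simp
  commutes' c := by
    ext i j
    rw [of_apply, algebraMap_apply, algebraMap_apply]
    split_ifs
    · exact AlgHomClass.commutes f c
    · exact map_zero f
  map_star' a := by ext i j; simp [map_star]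

@[simp] theorem map_apply (f : B →⋆ₐ[ℂ] R) (a : Mt I B) (i j : I) : map f a i j = f (a i j) := rfl

/-- Scalar matrices. -/
noncomputable def scal (x : I → I → ℂ) : Mt I B := of fun i j => algebraMap ℂ B (x i j)

@[simp] theorem scal_apply (x : I → I → ℂ) (i j : I) :
    (scal x : Mt I B) i j = algebraMap ℂ B (x i j) := rfl

/-- The diagonal matrix `diag(x, y)`. -/
noncomputable def dg (x y : B) : Mt (Fin 2) B := single 0 0 x + single 1 1 y

end Mt

end Pool.Agent.Helper34.CAR
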