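import Pool.Agent.Helper34.CAR.GoalsB
import Pool.Agent.Helper61.CAR.GoalsQ

/-!
# Project CAR: assembly of the circle version
-/

open scoped ComplexOrder ZeroAtInfty

namespace Pool.Agent.Helper34.CAR

open Pool.Agent.Helper39.Uct Pool.Agent.Helper61.CAR

theorem flip_flip (E : Type) [NonUnitalCStarAlgebra E] (f : C₀(ℝ, E)) :
    flip E (flip E f) = f := by
  ext t
  rw [flip_apply, flip_apply, neg_neg]

theorem starMap_flip (E : Type) [NonUnitalCStarAlgebra E] (b : Unitization ℂ C₀(ℝ, E)) :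
    Unitization.starMap (flip E) (Unitization.starMap (flip E) b) = b := by
  induction b with
  | inl_add_inr r x =>
    simp only [map_add, Unitization.starMap_inr, Unitization.starMap_inl, flip_flip,
      AlgHomClass.commutes]
    rfl

/-- The core: the matricial system of `D`. -/
theorem core_of (hQ : S_Q) (hE : S_E) (hNS : S_NS) (hHOM : S_HOM) (hSTEP : S_STEP)
    (hSYS : S_SYS) (hSEPS : S_SEPS) (D : Type) [NonUnitalCStarAlgebra D]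
    [TopologicalSpace.SeparableSpace D] (hD : Nuclear D) :
    ∃ (E : Type) (_ : NonUnitalCStarAlgebra E) (_ : TopologicalSpace.SeparableSpace E)
      (ρ : E →⋆ₙₐ[ℂ] C₀(ℝ, D)) (Z : Type) (_ : NonUnitalCStarAlgebra Z) (ι : Z →⋆ₙₐ[ℂ] E)
      (s : Sys (Unitization ℂ C₀(ℝ, E)) (Unitization.starMap (flip E))),
      PN E ∧ Function.Surjective ρ ∧ TopologicalSpace.SeparableSpace Z ∧ IsTypeI Z ∧
      Function.Injective ι ∧ (∀ e, ρ e = 0 ↔ e ∈ Set.range ι) ∧ s.Matricial := by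
  have hY : TopologicalSpace.SeparableSpace C₀(ℝ, D) := (hSEPS D).1
  obtain ⟨E, iE, sE, ρ, Z, iZ, ι, hPN, h1, h2, h3, h4, h5⟩ := hE C₀(ℝ, D) (hQ D hD)
  have hX : TopologicalSpace.SeparableSpace C₀(ℝ, E) := (hSEPS E).1
  have hB : TopologicalSpace.SeparableSpace (Unitization ℂ C₀(ℝ, E)) := (hSEPS C₀(ℝ, E)).2
  obtain ⟨s, hs⟩ := hSYS (Unitization ℂ C₀(ℝ, E)) (Unitization.starMap (flip E))
    (hSTEP C₀(ℝ, E) (flip E) (hNS E hPN) (hHOM E))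
  exact ⟨E, iE, sE, ρ, Z, iZ, ι, s, hPN, h1, h2, h3, h4, h5, hs⟩

theorem main_of (hQ : S_Q) (hE : S_E) (hNS : S_NS) (hHOM : S_HOM) (hSTEP : S_STEP)
    (hSYS : S_SYS) (hSEPS : S_SEPS) (hIL : S_IL) (hKINJ : S_KINJ) (hCARL : S_CARL)
    (hACT : S_ACT) (hFIX : S_FIX) (hRET : S_RET) (hUNI : S_UNI) (hUNC : S_UNC)
    (hSEPL : S_SEPL) : S_MAIN := by
  intro D _ _ hD
  obtain ⟨E, iE, sE, ρ, Z, iZ, ι₀, s, -, h1, h2, h3, h4, h5, hs⟩ :=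
    core_of hQ hE hNS hHOM hSTEP hSYS hSEPS D hD
  have hX : TopologicalSpace.SeparableSpace C₀(ℝ, E) := (hSEPS E).1
  have hB : TopologicalSpace.SeparableSpace (Unitization ℂ C₀(ℝ, E)) := (hSEPS C₀(ℝ, E)).2
  have hinj := hKINJ _ _ s
  obtain ⟨L, iL, ι, hι1, hι2, hι3⟩ := hIL s.A s.κ hinj
  obtain ⟨γ, hγ⟩ := hACT _ _ s L ι hι1 hι2 hι3
  obtain ⟨hf1, hf2⟩ := hFIX _ _ s L ι hι3 γ hγ
  refine ⟨L, iL, γ, hCARL _ _ s hs L ι hι1 hι2 hι3, ?_⟩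
  intro H _ j hj hjr 𝒞 h𝒞
  have e1 : 𝒞 D ↔ 𝒞 C₀(ℝ, D) := h𝒞.susp D
  have hZ : 𝒞 Z := h𝒞.typeI Z h3
  have e2 : 𝒞 C₀(ℝ, D) ↔ 𝒞 E :=
    ⟨fun h => h𝒞.ext Z E _ ι₀ ρ h4 h1 h5 hZ h, fun h => h𝒞.quot Z E _ ι₀ ρ h4 h1 h5 hZ h⟩
  have e3 : 𝒞 E ↔ 𝒞 C₀(ℝ, E) := h𝒞.susp E
  have e4 : 𝒞 C₀(ℝ, E) ↔ 𝒞 (Unitization ℂ C₀(ℝ, E)) := hUNC 𝒞 h𝒞 _
  have e5 : 𝒞 (Unitization ℂ C₀(ℝ, E)) ↔ 𝒞 H := by
    constructor
    · exact hUNI 𝒞 h𝒞 _ _ s L ι hι1 hι2 hι3 γ hf1 hf2 H j hj hjr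
    · intro h
      have hL : TopologicalSpace.SeparableSpace H := (hSEPL _ _ s L ι hι3).2 H j hj
      obtain ⟨i₀, p, hp⟩ := hRET _ _ (starMap_flip E) s L ι hι1 hι2 γ hf1 hf2 H j hj hjr
      exact h𝒞.retract _ H i₀ p hp h
  exact ((((e1.trans e2).trans e3).trans e4).trans e5)

end Pool.Agent.Helper34.CAR
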