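import Pool.Agent.Helper39.Uct.Goals3

/-!
# Circle actions on the CAR algebra: definitions

Project CAR (MP_d97caa_an), core and circle version.  Paper proof: `proof.md` in this folder.
-/

open scoped ComplexOrder ZeroAtInfty

namespace Pool.Agent.Helper34.CAR

open Pool.Agent.Helper39.Uct

/-! ## Completely positive maps and nuclearity -/

/-- Completely positive: entrywise application sends positive matrices `a* a` to positive
matrices `c* c`. -/
def IsCP {A B : Type} [NonUnitalCStarAlgebra A] [NonUnitalCStarAlgebra B]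
    (φ : A →ₗ[ℂ] B) : Prop :=
  ∀ (k : ℕ) (a : CStarMatrix (Fin k) (Fin k) A), ∃ c : CStarMatrix (Fin k) (Fin k) B,
    (star a * a).map φ = star c * c

/-- Nuclear C*-algebras: completely positive contractive approximations through matrix
algebras. -/
def Nuclear (D : Type) [NonUnitalCStarAlgebra D] : Prop :=
  ∀ (F : Finset D) (ε : ℝ), 0 < ε → ∃ (m : ℕ) (φ : D →ₗ[ℂ] CStarMatrix (Fin m) (Fin m) ℂ)
    (ψ : CStarMatrix (Fin m) (Fin m) ℂ →ₗ[ℂ] D), IsCP φ ∧ IsCP ψ ∧ (∀ x, ‖φ x‖ ≤ ‖x‖) ∧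
      (∀ x, ‖ψ x‖ ≤ ‖x‖) ∧ ∀ d ∈ F, ‖ψ (φ d) - d‖ < ε

/-! ## The CAR algebra and circle actions -/

/-- The CAR algebra `M_{2^∞}`: the closure of an increasing union of unital copies of
`M_{2^{e i}}(ℂ)` with `e i` strictly increasing. -/
def IsCAR (A : Type) [CStarAlgebra A] : Prop :=
  ∃ (e : ℕ → ℕ) (j : ∀ i, CStarMatrix (Fin (2 ^ e i)) (Fin (2 ^ e i)) ℂ →⋆ₐ[ℂ] A),
    StrictMono e ∧ (∀ i, Function.Injective (j i)) ∧
      (∀ i, Set.range (j i) ⊆ Set.range (j (i + 1))) ∧ Dense (⋃ i, Set.range (j i))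

/-- A continuous action of the circle group on a unital C*-algebra. -/
structure CircleAction (A : Type) [CStarAlgebra A] where
  act : Circle → A →⋆ₐ[ℂ] A
  one : ∀ a, act 1 a = a
  mul : ∀ z w a, act (z * w) a = act z (act w a)
  cont : ∀ a, Continuous fun z => act z a

/-- The fixed point algebra of a circle action. -/
def CircleAction.fix {A : Type} [CStarAlgebra A] (γ : CircleAction A) : Set A :=
  {a | ∀ z, γ.act z a = a}

/-! ## Classes of C*-algebras -/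

/-- Permanence properties of a class of C*-algebras: it contains the separable type I algebras
(`typeI`), is closed under two out of three in separable extensions (`ext`, `quot`, `ideal`),
closures of increasing unions (`union`), full hereditary subalgebras in both directions
(`hered`), suspension in both directions (`susp`) and retracts (`retract`). -/
structure Perm (𝒞 : Cls) : Prop where
  typeI : TypeIIn 𝒞
  ext : ExtIn 𝒞
  quot : ∀ (I A A' : Type) [NonUnitalCStarAlgebra I] [NonUnitalCStarAlgebra A]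
    [NonUnitalCStarAlgebra A'] [TopologicalSpace.SeparableSpace A]
    (ι : I →⋆ₙₐ[ℂ] A) (π : A →⋆ₙₐ[ℂ] A'), Function.Injective ι → Function.Surjective π →
    (∀ a : A, π a = 0 ↔ a ∈ Set.range ι) → 𝒞 I → 𝒞 A → 𝒞 A'
  ideal : ∀ (I A A' : Type) [NonUnitalCStarAlgebra I] [NonUnitalCStarAlgebra A]
    [NonUnitalCStarAlgebra A'] [TopologicalSpace.SeparableSpace A]
    (ι : I →⋆ₙₐ[ℂ] A) (π : A →⋆ₙₐ[ℂ] A'), Function.Injective ι → Function.Surjective π →
    (∀ a : A, π a = 0 ↔ a ∈ Set.range ι) → 𝒞 A → 𝒞 A' → 𝒞 I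
  union : UnionIn 𝒞
  hered : HeredIff 𝒞
  susp : ∀ (A : Type) [NonUnitalCStarAlgebra A] [TopologicalSpace.SeparableSpace A],
    𝒞 A ↔ 𝒞 C₀(ℝ, A)
  retract : ∀ (B A : Type) [NonUnitalCStarAlgebra B] [NonUnitalCStarAlgebra A]
    [TopologicalSpace.SeparableSpace A] (i : B →⋆ₙₐ[ℂ] A) (p : A →⋆ₙₐ[ℂ] B),
    (∀ b, p (i b) = b) → 𝒞 A → 𝒞 B

/-! ## Scalar quadratic forms of columns -/

/-- `[a; v] = ∑ a p q • (v p)* (v q)`. -/
noncomputable def qf {J : Type} [Fintype J] {R : Type} [NonUnitalCStarAlgebra R]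
    (a : CStarMatrix J J ℂ) (v : J → R) : R := ∑ p, ∑ q, a p q • (star (v p) * v q)

/-- Property (N): residually finite-dimensional and nuclear. -/
def PN (X : Type) [NonUnitalCStarAlgebra X] : Prop :=
  ∀ (F : Finset X) (ε : ℝ), 0 < ε → ∃ (J : Type) (_ : Fintype J) (_ : DecidableEq J)
    (σ : X →⋆ₙₐ[ℂ] CStarMatrix J J ℂ) (v : J → X), ‖∑ p, star (v p) * v p‖ ≤ 1 ∧
      ∀ x ∈ F, ‖qf (σ x) v - x‖ < ε

/-- Property (Q): nuclear and quasidiagonal. -/
def PQ (Y : Type) [NonUnitalCStarAlgebra Y] : Prop :=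
  ∀ (F : Finset Y) (ε : ℝ), 0 < ε → ∃ (J : Type) (_ : Fintype J) (_ : DecidableEq J)
    (Φ : Y →ₗ[ℂ] CStarMatrix J J ℂ) (y : J → Y), (∀ f, ‖Φ f‖ ≤ ‖f‖) ∧
      (∀ f, Φ (star f) = star (Φ f)) ∧ ‖∑ p, star (y p) * y p‖ ≤ 1 ∧
      (∀ f ∈ F, ∀ g ∈ F, ‖Φ (f * g) - Φ f * Φ g‖ < ε) ∧ ∀ f ∈ F, ‖qf (Φ f) y - f‖ < ε

end Pool.Agent.Helper34.CAR
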