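import Pool.Agent.Helper39.CR.GoalsS

/-!
# Project CAR, goals C: tracial rank zero of the fixed point algebras

Notation as in `Helper39/CR/GoalsS.lean`: `B = Unitization ℂ X`, `s` a system over `B`, `L` its limit, `Fix γ Z` the
fixed point algebra, `wz s n k` the weights modulo `n`, `grd B w` the graded matrices.
-/

open scoped ComplexOrder ZeroAtInfty
open TopologicalSpace

namespace Pool.Agent.Helper34.CAR

open Pool.Agent.Helper39.Uct Pool.Agent.Helper39.CR

noncomputable section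

/-- Tracial rank zero (Lin), for a unital C*-algebra `H`: for every finite set `S`, every nonzero
`a` and every `ε > 0` there is a finite-dimensional *-subalgebra `C` with a unit `p ≠ 0` such that
`p` commutes with `x` up to `ε` and `p x p` is in `C` up to `ε` for `x ∈ S`, and
`1 - p = star v * v` for some `v = a * y` (so that `v * star v ∈ a H a*`). -/
def IsTAF (H : Type) [NonUnitalCStarAlgebra H] : Prop :=
  ∀ (S : Finset H) (a : H) (ε : ℝ), a ≠ 0 → 0 < ε →
    ∃ (C : NonUnitalStarSubalgebra ℂ H) (p y : H), FiniteDimensional ℂ C ∧ p ∈ C ∧ p ≠ 0 ∧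
      (∀ c ∈ C, p * c = c) ∧ (∀ x ∈ S, ‖p * x - x * p‖ < ε ∧ ∃ c ∈ C, ‖p * x * p - c‖ < ε) ∧
      IsOne (p + star (a * y) * (a * y))

section

variable {B : Type} [CStarAlgebra B] {θ : B →⋆ₐ[ℂ] B} (s : Sys B θ) (k : ℕ)

/-- The core indices of stage `k + m` relative to stage `k`: all later coordinates are `c0` or
`c1`. -/
def core : ∀ m : ℕ, s.S (k + m) → Prop
  | 0, _ => True
  | m + 1, x => core m (s.e (k + m) x).1 ∧
      ((s.e (k + m) x).2 = s.c0 (k + m) ∨ (s.e (k + m) x).2 = s.c1 (k + m))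

/-- The descendants of the index `p` of stage `k` at stage `k + m`. -/
def desc (p : s.S k) : ∀ m : ℕ, s.S (k + m) → Prop
  | 0, x => x = p
  | m + 1, x => desc p m (s.e (k + m) x).1

end

/-- CORE. The images of the stage `k` at stage `k + m` are the sum of a core block and a scalar block.
Proof. Induction on `m`, `push k (m+1) a x y = K ((push k m a) (e x).1 (e y).1) (e x).2 (e y).2` (`Sys.κ_apply`), with the clauses of `s.step (k+m)`. Write
`x = (x', c)`, `y = (y', d)`. (1) exactly one of `x, y` is core, say `x` (the other case is symmetric): `x'` is core, `c ∈ {c0, c1}`. If `y'` is not core the entry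
`push k m a x' y'` is `0`. If `y'` is core then `d ∉ {c0, c1}`, so `c ≠ d` and `K b c d = 0`. (2) both not core. If `x'`, `y'` are both not core the entry is a scalar `z` and
`K z = z • 1` (`AlgHomClass.commutes`, `Mt.algebraMap_apply`) has scalar entries. If exactly one is core it is `0`. If both are core then `c, d ∉ {c0, c1}` and `K b c d` is a scalar. (3) DESC:
`push k (m+1) (single p p 1) x y = K (if x' = y' ∧ desc p m x' then 1 else 0) c d`, `K 1 = 1`. -/
def S_CORE : Prop := ∀ (B : Type) [CStarAlgebra B] (θ : B →⋆ₐ[ℂ] B) (s : Sys B θ) (k m : ℕ),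
  (∀ (a : s.A k) x y, (¬ (core s k m x ↔ core s k m y) → s.push k m a x y = 0) ∧
    (¬ core s k m x → ¬ core s k m y → ∃ c : ℂ, s.push k m a x y = algebraMap ℂ B c)) ∧
  ∀ (p : s.S k) x y, (desc s k p m x → x = y → s.push k m (Mt.single p p 1) x y = 1) ∧
    (¬ (desc s k p m x ∧ x = y) → s.push k m (Mt.single p p 1) x y = 0)

/-- CNT. The core indices inject, with preservation of the weights modulo `n`, into the descendants of `p`.
Proof. For a residue `r` let `D m r` be the number of the descendants of `p` at stage `k + m` with residue `r`, `c m = card (C (k+m))`. `D (m+1) r = (c m - 1) D m r + D m (r - 1)` (the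
coordinate `c0` adds `1` to the weight). (1) For `i ≤ m` there is a descendant with weight `wt p + i` (coordinates `c0` (`i` times) and `c1`), so `D m r ≥ 1` for all `r` if `m ≥ n`.
(2) `min_r D (m+1) r ≥ c m * min_r D m r`. So `D (n+j) r ≥ ∏_{n ≤ i < n+j} c i` for all `r`. (3) There are `card (S k) * 2^m` core indices at stage `k + m` (at most). As all
`c i ≥ 2` (`c0 ≠ c1`) and infinitely many are `≥ 4`, `∏_{n ≤ i < n+j} (c i / 2)` is unbounded, so for some `m = n + j`: `D m r ≥ card (S k) * 2^m` for all `r`, hence for every residue class the core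
indices of the class inject into the descendants of `p` of this class (finite sets, `Finset`/`Fintype` cardinalities); together this is `φ` (defined arbitrarily outside the core).
A non-core index exists at stage `k + m` if one of the `C (k+i)`, `i < m`, has at least `4 > 2` elements (take this coordinate outside `{c0, c1}`, the others arbitrary); enlarge `m` for this
(the inequality persists). -/
def S_CNT : Prop := ∀ (B : Type) [CStarAlgebra B] (θ : B →⋆ₐ[ℂ] B) (s : Sys B θ) (n k : ℕ)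
  (p : s.S k), 1 ≤ n → (∀ N, ∃ i ≥ N, 4 ≤ Fintype.card (s.C i)) →
  ∃ (m : ℕ) (φ : s.S (k + m) → s.S (k + m)),
    (∀ x, core s k m x → desc s k p m (φ x) ∧ wz s n (k + m) (φ x) = wz s n (k + m) x) ∧
    (∀ x y, core s k m x → core s k m y → φ x = φ y → x = y) ∧ ∃ x, ¬ core s k m x

/-- CUT. Spectral cut-off.
Proof. `c = star a * a ≥ 0`, continuous functional calculus over `ℝ`: `f t = max 0 (t - l)`, `g = cfc f c`, `r = cfc (fun t => √(max 0 (t - l)) * f t) c`. `g` is self-adjoint, commutes with everything that commutes with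
`c` (`Commute.cfc_real` or `cfc_commute_cfc`; in Mathlib: `Commute.cfc_real`), `‖g‖ = ‖c‖ - l > 0` or: `‖c‖` is in the spectrum of `c` (`IsSelfAdjoint`/`CStarAlgebra` lemma for nonnegative elements) and `f ‖c‖ ≠ 0`, so `g ≠ 0` (spectral
mapping). `g * c * g - l • g * g = cfc (fun t => f t * t * f t - l * (f t * f t)) c = cfc (fun t => (t - l) * f t ^ 2) c`, and `(t - l) f t ^ 2 = (√(max 0 (t - l)) f t)^2` on `ℝ`. The order: use
`CStarAlgebra.spectralOrder A` as a local instance. -/
def S_CUT : Prop := ∀ (A : Type) [CStarAlgebra A] (a : A) (l : ℝ), 0 ≤ l →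
  l < ‖star a * a‖ → ∃ g r : A, g ≠ 0 ∧ star g = g ∧
    (∀ b, b * (star a * a) = star a * a * b → b * g = g * b) ∧
    star g * (star a * a) * g - (l : ℂ) • (star g * g) = star r * r

/-- INV. Inverse square roots in a corner.
Proof. `b = d + μ • (1 - e)` is self-adjoint with `b - μ • 1 = d - μ • e`, so `‖b - μ‖ < μ`: the spectrum of `b` lies in `(0, 2 μ)` (`spectrum.norm_le_norm_of_mem` for `b - μ`). Let `w = cfc (fun t : ℝ => 1 / √t) b` (continuous on the
spectrum), `x = w * e`. `e` commutes with `b` (`e b = d = b e`... `e * b = e * d + 0 = d`, `b * e = d`), so with `w`. `x` satisfies `x e = x = e x`. `star x * d * x = e w d w e`, and `d = b e`, so it is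
`w b w e = e`, because `w b w = cfc (fun t => 1/√t * t * 1/√t) b = 1`. For a *-homomorphism `f` fixing `d` and `e`: `f b = b`, `f (cfc g b) = cfc g (f b)` (`StarAlgHomClass.map_cfc` / `StarAlgHom.map_cfc`; `f` is
continuous), so `f w = w` and `f x = x`. -/
def S_INV : Prop := ∀ (A : Type) [CStarAlgebra A] (e d : A) (μ : ℝ), e * e = e → star e = e →
  e * d = d → d * e = d → star d = d → ‖d - (μ : ℂ) • e‖ < μ → ∃ x : A, x * e = x ∧ e * x = x ∧
    star x * d * x = e ∧ ∀ f : A →⋆ₐ[ℂ] A, f d = d → f e = e → f x = x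

/-- OMGQ. A rank one scalar corner where an `X`-valued element is almost as large as its norm.
Proof (uses SSTR, KINJ). `t = star r * r`, entries with `fst = 0` (`X` is an ideal). `ω` = the entrywise character `Mt S B → Mt S ℂ` (`Mt.map` of `Unitization.fstHom`-like), contractive. `push k m` is isometric. By `Matricial` for `t` and `ε/2`
there are `m`, `x` with `‖push t - star v * scal x * v‖ < ε/2`, so `‖t‖ = ‖push t‖ < ‖x‖ + ε/2`, and `‖ω (push t) - star (ω v) * x * ω v‖ < ε/2` with `ω v` unitary, so `‖T‖ > ‖x‖ - ε/2`, `T = ω (push t)`: `μ := ‖T‖ > ‖t‖ - ε = ‖r‖² - ε > 0`.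
(Here `x` is regarded in `Mt S ℂ`, `‖scal x‖ ≤ ‖x‖`.) `T = star (ω (push r)) * ω (push r)` is positive in `Mt S ℂ`, so `μ = ‖T‖` is in its spectrum and there is `ξ ≠ 0` with `T ξ = μ ξ` (matrix `T - μ` not invertible: determinant zero,
`Matrix.exists_mulVec_eq_zero_iff`). `T x y = 0` unless `wz x = wz y` (`push t` is graded: `κ_mem`). Choose `p` with `ξ p ≠ 0` and replace `ξ` by its restriction to the indices with the residue of `p` (still
`T ξ = μ ξ`) and normalise: `∑ |ξ x|² = 1`. `V x y = algebraMap (ξ x)` if `y = p`, `0` otherwise: graded, `star V * V = single p p 1`. SSTR for `t` with `P`: if `P x` or `P y` then `T x y = 0`; `μ ξ x = ∑ T x y ξ y = 0` for `P x`, so `ξ x = 0` for `P x`; and for `x, y` not in `P`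
the entry `push t x y` is the scalar `T x y`. So `(star V * push t * V) p p = ∑ conj (ξ x) T x y ξ y = μ`, the other entries are `0`. -/
def S_OMGQ : Prop := ∀ (X : Type) [NonUnitalCStarAlgebra X] (θ : X →⋆ₙₐ[ℂ] X)
  (s : Sys (Unitization ℂ X) (Unitization.starMap θ)), s.Matricial → ∀ (n k : ℕ) (r : s.A k),
  r ∈ grd (Unitization ℂ X) (wz s n k) → (∀ x y, (r x y).fst = 0) → ∀ ε : ℝ, 0 < ε →
  ε < ‖r‖ ^ 2 → ∃ (m : ℕ) (p : s.S (k + m)) (V : s.A (k + m)) (μ : ℝ),
    V ∈ grd (Unitization ℂ X) (wz s n (k + m)) ∧ ‖r‖ ^ 2 - ε ≤ μ ∧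
    star V * V = Mt.single p p 1 ∧
    star V * s.push k m (star r * r) * V = (μ : ℂ) • Mt.single p p 1

/-- EPP. Every nonzero element of the fixed point algebra dominates a rank one scalar corner.
Proof (uses CUT, INV, ESS, OMGQ, TTOW). Scale: `‖a‖ = 1`. Let `δ = 1/100`, `a_k ∈ grd (wz s n k)` with `‖a - ι k a_k‖ < δ` (FixD). `c_k = star a_k * a_k`, `‖c_k‖ ≥ (1 - δ)² > 1/2`, `‖star a * a - ι c_k‖ ≤ δ (2 + δ) < 3 δ`. CUT in `s.A k` with
`l = 1/2`: `g ≠ 0`; `g` is graded: the projections `z_r = ∑_{wz x = r} single x x 1` commute with the graded `c_k`, hence with `g`, and a matrix that commutes with all `z_r` is graded. Some entry `g x y ≠ 0`; ESS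
gives `f : C₀(ℝ, E)` with `g x y * f ≠ 0`; `h = g * single y y f` is graded, `≠ 0`, has entries with `fst = 0`. From CUT: `star h * c_k * h - (1/2) star h * h = star (r z) (r z)`, `z = single y y f`, so
`(1/2) ‖h‖² ≤ ‖star h * c_k * h‖ = ‖a_k h‖²` (positive elements: `0 ≤ u ≤ v → ‖u‖ ≤ ‖v‖`, `CStarAlgebra.norm_le_norm_of_nonneg_of_le`). OMGQ for `r = a_k * h`, `ε = ‖h‖²/4`: `m, p, V, μ` with `μ ≥ ‖h‖²/4`. Let `e = ι (k+m) (single p p 1)`,
`y₀ = ι k h * ι (k+m) V`; `y₀ e = y₀` (`V * single p p 1 = V` from `star V * V = single p p 1`: `‖V - V q‖² = ‖(1-q) q (1-q)‖ = 0`). `d = star (a y₀) * (a y₀)`, self-adjoint, `e d = d = d e`, and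
`d - μ e = star y₀ (star a * a - ι c_k) y₀` has norm `≤ 3 δ ‖h‖² < μ` (`‖ι V‖ ≤ 1`; `ι (k+m) (push k m t) = ι k t`). INV gives `x`, fixed by all `γ z`, `z ∈ Z` (as `d`, `e` are); `y = y₀ x` satisfies `star (a y) * (a y) = star x * d * x = e`. -/
def S_EPP : Prop := ∀ (E : Type) [NonUnitalCStarAlgebra E], (∃ y : E, y ≠ 0) →
  ∀ (s : Sys (Unitization ℂ C₀(ℝ, E)) (Unitization.starMap (flip E))), s.Matricial →
  ∀ (L : Type) [CStarAlgebra L] (ι : ∀ i, s.A i →⋆ₐ[ℂ] L), IsLim s L ι →
  ∀ (γ : CircleAction L) (Z : Set Circle) (n : ℕ), FixD s ι γ Z n →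
  ∀ a : Fix γ Z, a ≠ 0 → ∃ (k : ℕ) (p : s.S k) (y : Fix γ Z),
    ((star (a * y) * (a * y) : Fix γ Z) : L) = ι k (Mt.single p p 1)

/-- TAFZ. Tracial rank zero when `E = 0`.
Proof. `C₀(ℝ, E)` is zero, so all elements of `B = Unitization ℂ C₀(ℝ, E)` are scalars and `Gd B (wz s n k)` is finite-dimensional. Given `S`, `a`, `ε`: by FixD (and finiteness of `S`; the ranges increase, TTOW) there is one `k` such that every
`x ∈ S` is `ε`-close to `range (u k)`. `C = range (u k)` (as a *-subalgebra), `p = 1`, `y = 0`. -/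
def S_TAFZ : Prop := ∀ (E : Type) [NonUnitalCStarAlgebra E], (∀ y : E, y = 0) →
  ∀ (s : Sys (Unitization ℂ C₀(ℝ, E)) (Unitization.starMap (flip E)))
  (L : Type) [CStarAlgebra L] (ι : ∀ i, s.A i →⋆ₐ[ℂ] L), IsLim s L ι →
  ∀ (γ : CircleAction L) (Z : Set Circle) (n : ℕ), FixD s ι γ Z n → IsTAF (Fix γ Z)

/-- TAFE. Tracial rank zero when `E ≠ 0`.
Proof (uses CORE, CNT, EPP, BIG, TTOW). Let `S`, `a ≠ 0`, `ε`. EPP: `k₀, p₀, y₀` with `star (a y₀) * (a y₀) = ι k₀ (single p₀ p₀ 1)`. Choose `k ≥ k₀` and `x_k ∈ grd (wz s n k)` with `‖x - ι k x_k‖ < ε/2` for all `x ∈ S` (FixD; the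
ranges increase). Let `p₁ : S k` be a descendant of `p₀` (all coordinates `c1`; a step of induction: `single (q,c) (q,c) 1 ≤ κ (single q q 1)`, i.e. `κ (single q q 1) * single (q,c) (q,c) 1 = single (q,c) (q,c) 1`), so with `y₁ = y₀ * ι k (single p₁ p₁ 1)` one has
`star (a y₁) * (a y₁) = ι k (single p₁ p₁ 1)`. (`single p₁ p₁ 1` is graded.) CNT (with BIG) for `n, k, p₁`: `m, φ`. At stage `k + m`: `P = ∑_{x not core} single x x 1`, `W = ∑_{x core} single (φ x) x 1`, both graded; `star W * W = ∑_{x core} single x x 1 = 1 - P` (`φ` injective on the core), and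
`push k m (single p₁ p₁ 1) * W = W` (CORE, DESC: `φ x` are descendants of `p₁`). `y = y₁ * ι (k+m) W`: `star (a y) * (a y) = ι (star W * push (single p₁ p₁ 1) * W) = ι (star W * W) = 1 - p`, `p = ι (k+m) P ≠ 0` (there is a non-core
index). `C` = the image under `ι (k+m)` of the graded matrices with scalar entries supported on non-core × non-core indices: a finite-dimensional *-subalgebra with unit `p`. By CORE `P` commutes with `push x_k`, and `P * push x_k * P` is in it. So
`‖p x - x p‖ ≤ 2 ‖x - ι x_k‖ < ε` and `‖p x p - ι (P push x_k P)‖ < ε`. -/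
def S_TAFE : Prop := ∀ (E : Type) [NonUnitalCStarAlgebra E], (∃ y : E, y ≠ 0) →
  ∀ (s : Sys (Unitization ℂ C₀(ℝ, E)) (Unitization.starMap (flip E))), s.Matricial →
  ∀ (L : Type) [CStarAlgebra L] (ι : ∀ i, s.A i →⋆ₐ[ℂ] L), IsLim s L ι →
  ∀ (γ : CircleAction L) (Z : Set Circle) (n : ℕ), 1 ≤ n → FixD s ι γ Z n → IsTAF (Fix γ Z)

/-- The main theorem with simplicity, unique trace and tracial rank zero. -/
def S_MAIN5 : Prop :=
  ∀ (D : Type) [NonUnitalCStarAlgebra D] [TopologicalSpace.SeparableSpace D], Nuclear D →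
    ∃ (A : Type) (_ : CStarAlgebra A) (γ : CircleAction A), IsCAR A ∧ Sai γ ∧
      (∀ z : Circle, orderOf z ≠ 0 → IsSimpleU (Fix γ {z}) ∧ IsTAF (Fix γ {z}) ∧
        ∃! τ : Fix γ {z} →ₗ[ℂ] ℂ, IsTrState τ) ∧
      ∀ T : Theory,
        (T.Zero (Fix γ Set.univ) ↔ T.Zero D) ∧
        (∀ z : Circle, z ≠ 1 → ¬ IsPrimePow (orderOf z) → (T.Zero (Fix γ {z}) ↔ T.Zero D)) ∧
        (∀ z z' : Circle, z ≠ 1 → z' ≠ 1 → (orderOf z).Coprime (orderOf z') →
          ((T.Zero (Fix γ {z}) ∧ T.Zero (Fix γ {z'})) ↔ T.Zero D))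

end

end Pool.Agent.Helper34.CAR
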