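import Pool.Agent.Helper34.CAR.GoalsB

/-!
# Project CAR: packets KINJ and TOP
-/

open scoped ComplexOrder ZeroAtInfty

namespace Pool.Agent.Helper34.CAR

open Pool.Agent.Helper39.Uct

theorem kinj : S_KINJ := by
  intro B _ θ s i a b h
  ext x y
  have h1 := congrArg (fun m : s.A (i + 1) =>
    m ((s.e i).symm (x, s.c1 i)) ((s.e i).symm (y, s.c1 i))) h
  simp only [Sys.κ_apply, Equiv.apply_symm_apply] at h1
  obtain ⟨-, -, -, -, h5, -⟩ := s.step i
  rw [h5, h5] at h1
  exact h1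

theorem Sys.wt_succ {B : Type} [CStarAlgebra B] {θ : B →⋆ₐ[ℂ] B} (s : Sys B θ) (i : ℕ)
    (x : s.S (i + 1)) :
    s.wt (i + 1) x = s.wt i (s.e i x).1 + if (s.e i x).2 = s.c0 i then 1 else 0 := rfl

theorem Sys.top_succ {B : Type} [CStarAlgebra B] {θ : B →⋆ₐ[ℂ] B} (s : Sys B θ) (i : ℕ) :
    s.top (i + 1) = (s.e i).symm (s.top i, s.c0 i) := rfl

theorem Sys.wt_le {B : Type} [CStarAlgebra B] {θ : B →⋆ₐ[ℂ] B} (s : Sys B θ) (i : ℕ)
    (x : s.S i) : s.wt i x ≤ i := by
  induction i with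
  | zero => exact le_of_eq rfl
  | succ i ih =>
    rw [Sys.wt_succ]
    have := ih (s.e i x).1
    split_ifs <;> omega

theorem Sys.wt_top {B : Type} [CStarAlgebra B] {θ : B →⋆ₐ[ℂ] B} (s : Sys B θ) (i : ℕ) :
    s.wt i (s.top i) = i := by
  induction i with
  | zero => rfl
  | succ i ih =>
    rw [Sys.wt_succ, Sys.top_succ, Equiv.apply_symm_apply, ih, if_pos rfl]

theorem Sys.eq_top {B : Type} [CStarAlgebra B] {θ : B →⋆ₐ[ℂ] B} (s : Sys B θ) (i : ℕ)
    (x : s.S i) (h : s.wt i x = i) : x = s.top i := by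
  induction i with
  | zero => exact s.uniq x
  | succ i ih =>
    rw [Sys.wt_succ] at h
    have h1 := s.wt_le i (s.e i x).1
    by_cases h2 : (s.e i x).2 = s.c0 i
    · rw [if_pos h2] at h
      have h3 := ih (s.e i x).1 (by omega)
      rw [Sys.top_succ, ← h3, ← h2, Prod.mk.eta, Equiv.symm_apply_apply]
    · rw [if_neg h2] at h
      omega

theorem top : S_TOP := by
  intro B _ θ s i
  have key : ∀ a, s.BlockDiag i a → ∀ k, k ≠ s.top i → a (s.top i) k = 0 := by
    intro a ha k hk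
    apply ha
    intro h
    apply hk
    apply s.eq_top
    rw [← h, s.wt_top]
  obtain ⟨hne, -, -, h4, h5, h6, -, -⟩ := s.step i
  refine ⟨?_, ?_, ?_, ?_, ?_⟩
  · intro a ha x y hxy
    rw [Sys.κ_apply]
    rw [Sys.wt_succ, Sys.wt_succ] at hxy
    by_cases h1 : s.wt i (s.e i x).1 = s.wt i (s.e i y).1
    · by_cases h2 : (s.e i x).2 = (s.e i y).2
      · rw [h1, h2] at hxy
        exact absurd rfl hxy
      · apply h6 _ _ _ h2
        by_cases h3 : (s.e i x).2 = s.c0 i
        · exact Or.inl h3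
        · by_cases h7 : (s.e i y).2 = s.c0 i
          · exact Or.inr (Or.inr (Or.inl h7))
          · rw [if_neg h3, if_neg h7, h1] at hxy
            exact absurd rfl hxy
    · rw [ha _ _ h1, map_zero, Mt.zero_apply]
  · intro a b ha hb x y hxy
    rw [Mt.mul_apply]
    refine Finset.sum_eq_zero fun k _ => ?_
    by_cases h1 : s.wt i x = s.wt i k
    · rw [hb k y (by rw [← h1]; exact hxy), mul_zero]
    · rw [ha x k h1, zero_mul]
  · intro a ha x y hxy
    rw [Mt.star_apply, ha y x (Ne.symm hxy), star_zero]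
  · intro a b ha hb
    rw [Mt.mul_apply, Finset.sum_eq_single (s.top i)]
    · intro k _ hk
      rw [key a ha k hk, zero_mul]
    · intro h
      exact absurd (Finset.mem_univ _) h
  · intro a
    rw [Sys.κ_apply, Sys.top_succ, Equiv.apply_symm_apply, h4]

end Pool.Agent.Helper34.CAR
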